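import Pool.Agent.helper19.QP.SpecM
import Pool.Agent.helper67.QP.QFIN

/-!
# QP (MP_ebc808_nt): final assembly of Theorem Q** (row FNR, after FNQ of helper30)
-/

set_option autoImplicit false

open Finset

noncomputable section

namespace Pool.Agent.QP

open Pool.Agent.helper7.IG (kk LL sig DDk MM im2 ps Vx Nb Frame incl ps_coeff ps_coeff_neg ps_coeff_nat)
open Pool.Agent.LQ (FF DD)
open Pool.Agent.EP (KK ww vvx WW JG ac pp IsT)

lemma FNR_z (x e : ZMod 2) (h : x + (e + 1) ≠ 0) : x = e := by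
  revert x e; decide

lemma FNR_coeff (f : KK) (e : ZMod 2) (n : ℕ) :
    (psi f + algebraMap (ZMod 2) kk e • UU).coeff (n : ℤ) =
      ∑ m ∈ n.divisors, (if m.Coprime 6 then algebraMap (ZMod 2) kk (f.coeff ((m : ℤ) ^ 2) + e) else 0) := by
  rw [HahnSeries.coeff_add, HahnSeries.coeff_smul]
  unfold psi UU
  rw [ps_coeff_nat, ps_coeff_nat, ← Finset.sum_filter]
  simp only [map_add]
  rw [Finset.sum_add_distrib, Finset.sum_const, map_sum, smul_eq_mul, nsmul_eq_mul, mul_comm]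

lemma FNR_neg (f : KK) (e : ZMod 2) (n : ℤ) (hn : n < 0) :
    (psi f + algebraMap (ZMod 2) kk e • UU).coeff n = 0 := by
  rw [HahnSeries.coeff_add, HahnSeries.coeff_smul]
  unfold psi UU
  rw [ps_coeff_neg _ _ hn, ps_coeff_neg _ _ hn, smul_zero, add_zero]

theorem FNR_incl_C (c : kk) : incl (Polynomial.C c) = algebraMap kk LL c := by
  simp only [incl, RingHom.comp_apply, Polynomial.coeToPowerSeries.ringHom_apply, Polynomial.coe_C,
    HahnSeries.ofPowerSeries_C]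
  rfl

/-- Row FNR: Theorem Q**. -/
theorem FNR (hEJA : EJA_stmt) (hEJC : EJC_stmt) (hRLX : RLX_stmt)
    (hSEL : SEL_stmt) (hPSN : PSN_stmt) (hINVP : INVP_stmt)
    (hUR3 : UR3_stmt) (hINA : INA_stmt) (hUHM : UHM_stmt) (hUHD : UHD_stmt)
    (hURU : URU_stmt) (hLEMC : LEMC_stmt) (hKE2 : KE2_stmt) (hODD : ODD_stmt) (hARI : ARI_stmt)
    (hCH2 : CH2_stmt) : QSQRT_stmt := by
  intro S hS hD N hN e
  obtain ⟨A, K, hK, hKne, hf⟩ := hEJA S hD
  have hM0 : N * ∏ D ∈ S, D ≠ 0 := by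
    apply Nat.mul_ne_zero (by omega)
    rw [Finset.prod_ne_zero_iff]
    intro D hDS h0
    have := hD D hDS
    rw [h0] at this
    omega
  obtain ⟨N₂, hsq, hN6, hcop⟩ := QFIN_rad _ hM0
  have hN2pos : 0 < N₂ := Nat.pos_of_ne_zero (fun h => by rw [h] at hsq; exact not_squarefree_zero hsq)
  -- the sets `NN a`
  have hNN : ∀ a : ℕ, ∃ NN : Finset ℕ, a < A → Rel NN (K a) := by
    intro a
    by_cases ha : a < A
    · obtain ⟨NN, h⟩ := hRLX (K a) (hK a ha)
      exact ⟨NN, fun _ => h⟩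
    · exact ⟨∅, fun h => absurd h ha⟩
  choose NN hNN using hNN
  set Nb := ∏ a ∈ range A, ∏ n ∈ NN a, n with hNb
  have hodd : Odd Nb := by
    rw [hNb]
    refine Finset.prod_induction _ Odd (fun _ _ => Odd.mul) odd_one ?_
    intro a ha
    refine Finset.prod_induction _ Odd (fun _ _ => Odd.mul) odd_one ?_
    intro n hn
    exact (hNN a (Finset.mem_range.1 ha)).1 n hn
  have hdvd : ∀ a < A, ∀ n ∈ NN a, n ∣ Nb := by
    intro a ha n hn
    exact (Finset.dvd_prod_of_mem _ hn).trans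
      (Finset.dvd_prod_of_mem (fun a => ∏ n ∈ NN a, n) (Finset.mem_range.2 ha))
  obtain ⟨c, hc⟩ := hSEL Nb A NN K hodd hNN hdvd
  have hRUm : ∀ m, Odd m → ∀ ζ : kkˣ, ζ ∈ RU m ↔ ζ ^ m = 1 := fun m hm => (hURU m hm).1
  have hpsi3 : Inv3 (psi (fK A K)) :=
    hINVP _ c Nb A NN hRUm hodd
      (fun a ha n hn => ⟨(hNN a ha).1 n hn, hdvd a ha n hn⟩) hc
  have hUU3 : Inv3 UU := hUR3 hUHM hUHD
  have hG3 : Inv3 (psi (fK A K) + algebraMap (ZMod 2) kk (e + 1) • UU) := by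
    rcases (QFIN_z e) with h | h
    · rw [h, map_zero, zero_smul, add_zero]; exact hpsi3
    · rw [h, map_one, one_smul]; exact hINA _ _ hpsi3 hUU3
  have hnc : ∀ c' : kk, psi (fK A K) + algebraMap (ZMod 2) kk (e + 1) • UU ≠ algebraMap kk LL c' := by
    intro c' hc'
    have hsig := congrArg (sig Nb 1) hc'
    rw [map_add, hc, AlgHom.commutes] at hsig
    have h2 : ∀ x : LL, x + x = 0 := by
      intro x
      have : (2 : LL) = 0 := CharTwo.two_eq_zero
      rw [← two_mul, this, zero_mul]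
    obtain ⟨hp1, hp2⟩ := hPSN Nb A NN K hodd hNN (hKne hS) hdvd (c + c')
    rcases (QFIN_z e) with h | h
    · rw [h, map_zero, zero_smul, map_zero, add_zero] at hsig
      apply hp1
      rw [map_add, ← hsig, ← add_assoc, h2, zero_add]
    · rw [h, map_one, one_smul] at hsig
      apply hp2
      rw [map_add, ← hsig]
      have : algebraMap kk LL c + (algebraMap kk LL c + XI Nb A NN + sig Nb 1 UU) =
          (algebraMap kk LL c + algebraMap kk LL c) + (XI Nb A NN + sig Nb 1 UU) := by ring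
      rw [this, h2, zero_add]
  have hPNc : ∀ c' : kk, PN N₂ (psi (fK A K) + algebraMap (ZMod 2) kk (e + 1) • UU) ≠
      algebraMap kk LL c' := by
    intro c' hc'
    obtain ⟨c'', hc''⟩ := hLEMC _ N₂ hG3 hsq hN6 ⟨1, Polynomial.C c', one_ne_zero, by
      rw [map_one, one_mul, hc', FNR_incl_C]⟩
    exact hnc c'' hc''
  have hodd1 : ∃ n : ℤ, Odd n ∧
      (PN N₂ (psi (fK A K) + algebraMap (ZMod 2) kk (e + 1) • UU)).coeff n ≠ 0 := by
    refine hODD _ (fun m => if m.Coprime 6 then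
      algebraMap (ZMod 2) kk ((fK A K).coeff ((m : ℤ) ^ 2) + (e + 1)) else 0) N₂ (FNR_neg _ _)
      (fun n _ => FNR_coeff (fK A K) (e + 1) n) ?_ hPNc
    intro m hm
    have hm6 : m.Coprime 6 := by
      by_contra h
      exact hm (if_neg h)
    have hm2 : m.Coprime 2 := Nat.Coprime.coprime_dvd_right (by norm_num) hm6
    exact Nat.coprime_two_right.1 hm2
  obtain ⟨C, hC⟩ := hKE2 _ N₂ hG3 (FNR_neg _ _) hsq hN6 hnc hodd1
  have key : ∀ l : ℕ, l.Prime → C + N₂ + 5 ≤ l → ∃ m : ℕ, 0 < m ∧ l ∣ m ∧ m ≤ (C + N₂ + 5) * l ^ 2 ∧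
      m.Coprime (6 * N) ∧
      (∑ D ∈ S, (Fintype.card (Nat.Partition ((D * m ^ 2 + 1) / 24)) : ZMod 2)) = e := by
    intro l hl hl0
    have hNl : N₂.Coprime l :=
      ((Nat.Prime.coprime_iff_not_dvd hl).2 (Nat.not_dvd_of_pos_of_lt hN2pos (by omega))).symm
    obtain ⟨n, hn, hne⟩ := hC l hl (by omega) hNl
    obtain ⟨m, hβ, hm0, hlm, hmn, hmN⟩ := hARI _ _ N₂ l n
      (fun n _ => FNR_coeff (fK A K) (e + 1) n) hl hNl hne
    have hm6 : m.Coprime 6 := by
      by_contra h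
      rw [if_neg h] at hβ
      exact hβ rfl
    rw [if_pos hm6] at hβ
    have hfe : (fK A K).coeff ((m : ℤ) ^ 2) = e := by
      apply FNR_z
      intro h
      rw [h, map_zero] at hβ
      exact hβ rfl
    obtain ⟨-, hMc⟩ := hcop m (Nat.Coprime.mul_right hm6 hmN)
    have hmN : m.Coprime N := Nat.Coprime.coprime_mul_right_right hMc
    have hmP : m.Coprime (∏ D ∈ S, D) := Nat.Coprime.coprime_mul_left_right hMc
    have hsum : (fK A K).coeff ((m : ℤ) ^ 2) =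
        ∑ D ∈ S, (Fintype.card (Nat.Partition ((D * m ^ 2 + 1) / 24)) : ZMod 2) := by
      rw [hf]
      refine Finset.sum_congr rfl fun D hDS => ?_
      have hmD : m.Coprime D := Nat.Coprime.coprime_dvd_right (Finset.dvd_prod_of_mem _ hDS) hmP
      rw [hEJC D m (hD D hDS) hm6 hmD]
      rfl
    refine ⟨m, hm0, hlm, ?_, Nat.Coprime.mul_right hm6 hmN, ?_⟩
    · calc m ≤ l * n := hmn
        _ ≤ l * (C * l) := Nat.mul_le_mul_left l hn
        _ = C * l ^ 2 := by ring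
        _ ≤ (C + N₂ + 5) * l ^ 2 := Nat.mul_le_mul_right _ (by omega)
    · rw [← hsum, hfe]
  refine ⟨⟨C + N₂ + 5, key⟩, ?_⟩
  refine hCH2 {m : ℕ | m.Coprime (6 * N) ∧
    (∑ D ∈ S, (Fintype.card (Nat.Partition ((D * m ^ 2 + 1) / 24)) : ZMod 2)) = e} (C + N₂ + 5)
    (C + N₂ + 5) ?_
  intro l hl hl0
  obtain ⟨m, hm0, hlm, hm1, hm2, hm3⟩ := key l hl hl0
  exact ⟨m, ⟨hm2, hm3⟩, hm0, hlm, hm1⟩

end Pool.Agent.QP
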