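import Pool.Agent.helper67.QP.All
import Pool.Agent.helper19.QP.FNR
import Pool.Agent.helper34.QP.CH2
import Pool.Agent.helper60.QP.ODD
import Pool.Agent.helper90.QP.OR2
import Pool.Agent.helper28.QP.YI2
import Pool.Agent.helper57.QP.TAY
import Pool.Agent.helper32.QP.ORT
import Pool.Agent.helper49.QP.ARI
import Pool.Agent.helper23.QP.FRA
import Pool.Agent.helper2.QP.HHC
import Pool.Agent.helper30.QP.HV2
import Pool.Agent.helper57.QP.HTA
import Pool.Agent.helper39.QP.HTB
import Pool.Agent.helper48.QP.HTC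
import Pool.Agent.helper18.QP.HTL
import Pool.Agent.helper31.QP.IDX
import Pool.Agent.helper20.QP.INO
import Pool.Agent.helper20.QP.PNI
import Pool.Agent.helper59.QP.INT
import Pool.Agent.helper29.QP.NVH
import Pool.Agent.helper72.QP.POL

set_option autoImplicit false

noncomputable section

namespace Pool.Agent.QP

open Pool.Agent.helper7.IG

theorem m_HV2 : HV2_stmt := HV2 all_UPM all_DNM
theorem m_HP2 : HP2_stmt := HP2 all_PNS m_HV2 ig_ME
theorem m_PNI : PNI_stmt := PNI ig_PSI
theorem m_HTL : HTL_stmt := HTL HTA HTB (HTC INO)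
theorem m_IDX : IDX_stmt := IDX ig_ME
theorem m_FRA : FRA_stmt := FRA ig_ME
theorem m_POL : POL_stmt := POL ig_ME

end Pool.Agent.QP
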