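import Pool.Agent.helper19.QP.Defs
import Pool.Agent.helper67.TPC.Spec

/-!
# Project qp (MP_ebc808_nt), Theorem Q+: block S (Selberg's identity and the kernel)

Paper proof: /team-store/H6_ebc808_Qplus_skeleton_helper19.md, step 1. The aim is `SEL`: the series `psi f` is (after `q ↦ q^N`) a constant plus the
sum `XI` of kernels. `KK` = Laurent series over the field with two elements, `jj = 1/D`, `jc M` its coefficients, `JG jc n` (EP, Pool/Agent/helper7/EP/Defs.lean)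
the coefficients of its image under the Hecke operator `T_n`: `JG jc n M = ∑_{d ∣ n, d ∣ M} jc (n M/d^2)`. Characteristic 2 everywhere.
All the rows of project LQ are proved (Pool/Agent/helper67/LQ/All.lean and the files there), and those of EP (Pool/Agent/helper7/EP/AllH.lean) and IG.

RULES. Row `XX`: file `Pool/Agent/<seat>/QP/XX.lean`, import this file (and the landed files named in the docstring), `namespace Pool.Agent.QP`,
auxiliary lemmas prefixed `XX_`, other rows only as hypotheses `(hYY : YY_stmt)`.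
-/

set_option autoImplicit false

open Finset

noncomputable section

namespace Pool.Agent.QP

open Pool.Agent.helper7.IG (kk LL sig DDk MM im2 ps Vx Nb Frame)
open Pool.Agent.LQ (FF DD)
open Pool.Agent.EP (KK ww vvx WW JG ac pp IsT)

/-! ### Definitions -/

/-- `1/D` as a Laurent series over the field with two elements. -/
def jj : KK := (HahnSeries.ofPowerSeries ℤ (ZMod 2) DD)⁻¹

/-- Its coefficients. -/
def jc (M : ℤ) : ZMod 2 := jj.coeff M

/-- Polynomials in `jj` without constant term. -/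
def JS : Submodule (ZMod 2) KK := Submodule.span (ZMod 2) {f | ∃ i : ℕ, 1 ≤ i ∧ f = jj ^ i}

/-- The Shimura lift: the coefficient at `n` is the sum of the coefficients of `f` at the `m^2`, `m ∣ n`, `m` prime to 6. -/
def psi (f : KK) : LL :=
  ps fun n => algebraMap (ZMod 2) kk (∑ m ∈ n.divisors with m.Coprime 6, f.coeff ((m : ℤ) ^ 2))

/-- The Laurent series `∑_{a < A} ∑_{k ∈ K a} ww^(24 2^a k - 1)`. -/
def fK (A : ℕ) (K : ℕ → Finset ℕ) : KK :=
  ∑ a ∈ range A, ∑ k ∈ K a, ww ^ (24 * (2 ^ a * k) - 1)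

/-- `∑ c(α β)` over `α, β ≥ 1` with `μ α + lam β = m`. -/
def KQ (c : ℕ → ZMod 2) (μ lam m : ℕ) : ZMod 2 :=
  ∑ x ∈ (Icc 1 m ×ˢ Icc 1 m).filter (fun x => μ * x.1 + lam * x.2 = m), c (x.1 * x.2)

/-- The number (mod 2) of the divisors `e` of `n` with `|μ (n/e) - lam e| = m`. -/
def PQ (n μ lam m : ℕ) : ZMod 2 :=
  ((#{e ∈ n.divisors | ((μ * (n / e) : ℕ) : ℤ) - ((lam * e : ℕ) : ℤ) = m ∨
    ((lam * e : ℕ) : ℤ) - ((μ * (n / e) : ℕ) : ℤ) = m} : ℕ) : ZMod 2)

/-- The coefficient at `q^(N l)`, `l ≥ 1`, of the sum over the conjugates of degree `n` of `q^(lam N)` of the kernel with `y = q^(μ N)`. -/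
def CP (n μ lam l : ℕ) : ZMod 2 :=
  ∑ e ∈ n.divisors,
    (∑ x ∈ (Icc 1 l ×ˢ Icc 1 l).filter (fun x => μ * x.1 + lam * e * x.2 = l),
        JG jc x.1 ((n / e : ℕ) * (x.2 : ℤ)) +
      if (((μ * (n / e) : ℕ) : ℤ) - ((lam * e : ℕ) : ℤ)) ∣ (l : ℤ) then 1 else 0)

/-! ### Level one: the function `1/D` -/

/-- **RLX** (short-medium, 60 lines; uses `LQ.TGR_stmt`). For every finite set `K` of odd numbers there is `NN` with `Rel NN K`.
Proof. `DD = q + ...`: `coeff n (DD^i)` is `0` for `n < i` and `1` for `n = i` (`DD` has constant term `0` and linear term `1`). Let `M` be larger than all elements of `K`. Show by induction on `j ≤ M`: there is a finite set `NN` of odd numbers `n`, `M - j ≤ n < M`, such that the equation of `Rel`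
holds for all odd `i ≥ M - j`. `j = 0`: `NN = ∅`, both sides are `0`. Step: `i₀ = M - j - 1`; if it is even, nothing to do; if it is odd and the equation holds for `i₀` keep `NN`, otherwise insert `i₀`: this changes the left side for `i₀` by `1` and not for `i > i₀`. -/
def RLX_stmt : Prop := ∀ K : Finset ℕ, (∀ k ∈ K, Odd k) → ∃ NN : Finset ℕ, Rel NN K

/-- **JJ0** (medium, 100 lines; uses `LQ.TGR_stmt`, `EP.WM_stmt` (proved)). The powers of `jj`.
Proof. `DD = X * EE^24`, `EE * PP = 1` (`helper81`; see WM): `jj = single (-1) 1 * ofPowerSeries (PP^24)`, and `PP^24 = (PP^3)^8 = (PP^3)(q^8)`. So `jj^i = single (-i) 1 * ofPowerSeries ((PP^(3i))(q^8))`: (1) no coefficients below `-i`, (2) coefficient `1` at `-i`, (3) nonzero coefficients only at `M = -i mod 8`.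
(4) the coefficient at `0`: `0` unless `8 ∣ i`; for `i = 8 i'`, `jj^i = (jj^i')^8 = (jj^i')(q^8)` (Frobenius, `EP.FRO_stmt`) and the coefficient at `0` is that of `jj^i'`: strong induction. (5) `ww^3 = single (-3) 1 * ofPowerSeries (PP^3 (x^24))` (WM) `= jj(x^3)`, since `jj(x^3) = x^(-3) (PP^3)(x^24)`; powers. -/
def JJ0_stmt : Prop :=
  (∀ (i : ℕ) (M : ℤ), M < -(i : ℤ) → (jj ^ i).coeff M = 0) ∧
  (∀ i : ℕ, (jj ^ i).coeff (-(i : ℤ)) = 1) ∧
  (∀ (i : ℕ) (M : ℤ), (jj ^ i).coeff M ≠ 0 → (8 : ℤ) ∣ M + i) ∧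
  (∀ i : ℕ, 1 ≤ i → (jj ^ i).coeff 0 = 0) ∧
  (∀ (i : ℕ) (M : ℤ), (ww ^ (3 * i)).coeff M = if (3 : ℤ) ∣ M then (jj ^ i).coeff (M / 3) else 0) ∧
  jj * HahnSeries.ofPowerSeries ℤ (ZMod 2) DD = 1

/-- **JGN** (short, 40 lines; uses JJ0). Proof. `jc M = 0` for `M < -1`, `jc (-1) = 1`, `jc M ≠ 0` implies `M = 7 mod 8` (JJ0, `i = 1`), so `M` odd. `M < 0`: as in `EP.JN` (Pool/Agent/*/EP/JN.lean): `n M/d^2 < 0` must be `-1`, so `d = n = -M`. `M = 0`: all terms are `jc 0 = 0`. Symmetry: for `n, m ≥ 1` both sides are the sum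
of `jc (n m/d^2)` over the common divisors `d`. Last part: if `n` is odd and `M` is even all `n M/d^2` (`d` odd) are even. -/
def JGN_stmt : Prop :=
  (∀ (n : ℕ) (M : ℤ), 0 < n → M ≤ 0 → JG jc n M = if M = -(n : ℤ) then 1 else 0) ∧
  (∀ n m : ℕ, 0 < n → 0 < m → JG jc n m = JG jc m n) ∧
  ∀ (n : ℕ) (M : ℤ), Odd n → Even M → JG jc n M = 0

/-- **TJL** (medium, 80 lines; uses JJ0, `TPC.TWD_stmt` (proved, Pool/Agent/helper92/TPC/TWD.lean)). The Hecke operators `T_l`, `l ≥ 5` prime.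
Proof. `f = ww^(3i)`: TWD gives `G` in the span of the `ww^j`, `j ≥ 3i`, `j = 3 l i mod 24`, so `3 ∣ j`, and `IsT l (ww^(3i)) G`. `G` is a finite sum of `ww^(3 j')`, `j' ≥ 1`; let `g` be the same sum of the `jj^j'`. By JJ0 (5) `G = g(x^3)`, `ww^(3i) = (jj^i)(x^3)`, so `g.coeff M = G.coeff (3 M) = (ww^(3i)).coeff (3 l M) +
[l ∣ 3M] (ww^(3i)).coeff (3M/l) = (jj^i).coeff (l M) + [l ∣ M] (jj^i).coeff (M/l)` (`l ≠ 3`). -/
def TJL_stmt : Prop := ∀ l i : ℕ, l.Prime → 5 ≤ l → 1 ≤ i → ∃ g ∈ JS, IsT l (jj ^ i) g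

/-- **TJT** (medium-long, 160 lines; uses JJ0, `LQ.ME3_stmt`, `LQ.TGR_stmt`, `EP.FRO_stmt`). The Hecke operator `T_3`.
Proof. For `f : KK` let `U f` have the coefficients `f.coeff (3 M)`, `z f = f(q^3)`; `T_3 f = U f + z f`; `U (f * z g) = (U f) * g`. `X = jj`, `Z = z jj`. ME3: `D^4 + D_3^4 = D D_3` (`D_3 = D(q^3)`); dividing by `D^4 D_3^4`: `X^4 + Z^4 = X^3 Z^3` (`Z^4 + X^4 = 1/(D^4) + 1/(D_3^4) = (D^4 + D_3^4)/(D D_3)^4 = 1/(D D_3)^3`).
So for `i ≥ 0`: `U (X^(i+4)) = jj^3 U(X^(i+3)) + jj^4 U(X^i)`, and `Z^(i+4) = Z^(i+3) X^3 + Z^i X^4`; with `t i = T_3 (jj^i)`: `t (i+4) = jj^3 t (i+3) + jj^4 t i`. `t 0 = 1 + 1 = 0`. `t (2i) = (t i)^2`. `t 1 = jj^3`: let `r = D(q^9)`, `u = D + r` (the part of `D` with exponents prime to 3: these are `1 mod 24`, the exponents of `r` are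
divisible by 9), `u^3 + r^3` has exponents divisible by 3 and `D (u^2 + u r + r^2) = u^3 + r^3`, so `X = (u^2 + u r + r^2)/(u^3 + r^3)`, the part with exponents divisible by 3 is `r^2/(u^3 + r^3)`, `u^3 = D(q^3)` (`LQ.tt^3 = ex 3 DD`), so `U X = D_3^2/(D + D_3^3)` and `T_3 X = D_3^2/(D + D_3^3) + 1/D_3 = D/(D_3 D + D_3^4) = D/D^4 = jj^3`
(ME3). `t 2 = jj^6`. `t 3`: from `i = 0`: `t 4 = jj^3 t 3`, `t 4 = (t 1)^4 = jj^12`, so `t 3 = jj^9`. By induction all `t i`, `i ≥ 1`, are polynomials in `jj` without constant term. -/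
def TJT_stmt : Prop := ∀ i : ℕ, 1 ≤ i → ∃ g ∈ JS, IsT 3 (jj ^ i) g

/-- **TJN** (short-medium, 60 lines; uses TJL, TJT, `EP.JREC_stmt` (proved)). Proof. As `EP.JW` (Pool/Agent/*/EP/JW.lean): strong induction on odd `n`; `n = 1`: `jj`. `n = l n'`, `l` an odd prime: `T_l` of the element for `n'` (span induction: TJL, TJT extend to `JS`), plus (if `l ∣ n'`) the element for `n'/l`, by JREC. -/
def TJN_stmt : Prop := ∀ n : ℕ, Odd n → ∃ g ∈ JS, ∀ M : ℤ, g.coeff M = JG jc n M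

/-- **KER** (medium, 130 lines; uses JJ0, JGN, TJN, `LQ.TGR_stmt`, `EP.FRO_stmt`). The kernel: `T_n (1/D) = ∑_i [q^n](D^i) D^(-i)`.
Proof. First `n` odd. `g` from TJN, `g = ∑_{i ∈ I} jj^i`, `I` a finite set of positive integers (span induction, symmetric differences). For `i ≥ 1` the coefficient at `0` of `g * D^i` (`D^i` as a Laurent series) is `1` if `i ∈ I`, else `0`: `jj^(i') D^i` is `1` for `i' = i`, `D^(i-i')` has no constant term for `i > i'`, and
`jj^(i'-i)` has none for `i' > i` (JJ0 (4)). On the other hand `g` has the coefficients `JG jc n M`: for `M ≤ 0` only `q^(-n)` (JGN), and `D^i` has only exponents `≥ 1`, so the coefficient at `0` of `g D^i` is `coeff n (DD^i)`. So `g = ∑_{i ≥ 1} coeff n (DD^i) jj^i` (`coeff n (DD^i) = 0` for `i > n`). General `n = 2^t n'`, `n'` odd: `coeff n (DD^i) ≠ 0`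
only if `i = 2^t i'` (`i = 2^s i''`, `i''` odd: `DD^i = (DD^i'')(q^(2^s))` has exponents `2^s` times odd numbers), and then it is `coeff n' (DD^i')`; `(jj^(2^t i')).coeff M = [2^t ∣ M] (jj^i').coeff (M/2^t)` (FRO). So the right side is `[2^t ∣ M] JG jc n' (M/2^t)`. The left side: a term `jc (n M/d^2)` is `0` unless `n M/d^2` is odd, `d ∣ n`, `d ∣ M`:
then `d = 2^t d'`, `d'` odd, `M = 2^t M'`, `M'` odd, `n M/d^2 = n' M'/d'^2`; so it is `JG jc n' (M/2^t)` if `2^t ∣ M` (for `M/2^t` even both are `0`), else `0`. -/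
def KER_stmt : Prop := ∀ (n : ℕ) (M : ℤ), 0 < n →
  JG jc n M = ∑ i ∈ Icc 1 n, PowerSeries.coeff n (DD ^ i) * (jj ^ i).coeff M

/-- **DRL** (short, 40 lines; uses KER, `LQ.TGR_stmt`). The relation `Rel`, dual form.
Proof. KER for every `n ∈ NN` (odd): `coeff n (DD^i) = 0` for even `i` (exponents of `DD^i` are `i mod 8`) and for `i > n`; exchange the sums: `∑_i (∑_n coeff n (DD^i)) (jj^i).coeff M` over odd `i ≤ max`, and `∑_n coeff n (DD^i) = [i ∈ K]` (for `i` beyond all `n` it is `0`, so no element of `K` is missed). -/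
def DRL_stmt : Prop := ∀ NN K : Finset ℕ, Rel NN K → ∀ M : ℤ,
  ∑ n ∈ NN, JG jc n M = ∑ k ∈ K, (jj ^ k).coeff M

/-- **HCM** (short-medium, 70 lines; uses `LQ.ALG_stmt`). The Hecke operators commute. `a, b, n ≥ 1`.
Proof. Let `f` be the power series with the coefficients `jc M`, `M ≥ 1`, and constant term `0` (the terms below only involve positive arguments). The left side is `coeff b (T a (T n f))`, as `coeff M (T n f) = JG jc n M` for `M ≥ 1` (`LQ.coeff_T`), the right side is `coeff b (T n (T a f))`. Let `p` be a prime not dividing `a n` (larger than `a n`). `T a`, `T n` are in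
`TT p` and commute by ALG (`N = p > 1`). -/
def HCM_stmt : Prop := ∀ a b n : ℕ, 0 < a → 0 < b → 0 < n →
  ∑ d ∈ (Nat.gcd a b).divisors, JG jc n ((a * b / d ^ 2 : ℕ) : ℤ) =
    ∑ e ∈ (Nat.gcd n b).divisors, JG jc a ((n * b / e ^ 2 : ℕ) : ℤ)

/-! ### The kernel in `LL` -/

/-- **FBN** (short, 30 lines). Frobenius on `LL` for series over the prime field. Proof. `DDk = im2 DD` (or `DDk_coeff`); `F^(2^s)` has the coefficients of `F(q^(2^s))` (for instance `EP.FRO_stmt`, `pow_eq_expand`, or in `LL` directly: `frobenius`); `sig_sig`. -/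
def FBN_stmt : Prop := ∀ E s : ℕ, E ≠ 0 → sig (2 ^ s * E) 1 DDk = sig E 1 DDk ^ 2 ^ s

/-- **KXP** (medium-long, 180 lines; uses JJ0, JGN, KER). The expansion of the kernel. `x = ζ q^α`, `y = q^β`, `a = D(x)`, `b = D(y)`, `ord a = α`, `ord b = β`.
Proof. First `α < β`: `u = b/a`, `ord u = β - α ≥ 1`, `kap a b = b/(a+b) = u/(1+u)`, and for every `I`: `kap a b + ∑_{i=1}^{I} u^i = u^(I+1)/(1+u)` has order `≥ I + 1`. Take `I ≥ l`: the coefficient at `l` is that of `∑_{i=1}^{I} b^i a^(-i)`. `b^i = ∑_A coeff A (DD^i) q^(β A)`, `a^(-i)` has the coefficient `ζ^M (jj^i).coeff M` at `α M` (`sig α ζ` applied to the image of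
`jj^i` in `LL`; the map `KK → LL` given by `ZMod 2 → kk`). So the coefficient is `∑_A ∑_{i=1}^{I} coeff A (DD^i) (jj^i).coeff M ζ^M` over the `A ≥ 1` with `M = (l - β A)/α` integral, and the sum over `i` is `JG jc A M` for `A ≤ I` (KER; `coeff A (DD^i) = 0` for `i > A`). For `A > l` (`l ≥ 1`): `M < -A` since `α M = l - β A < A (1 - β)`, `α ≤ β - 1`, hence
`JG jc A M = 0` (JGN); more precisely every term with `A > l.toNat` vanishes: if `(jj^i).coeff M ≠ 0`, `i ≤ A`, then `M ≥ -A` and `l = β A + α M ≥ (β - α) A ≥ A`. (So for `l ≤ 0` everything is `0`.) Second case `β < α`: `kap a b = 1 + kap b a` (`b/(a+b) + a/(a+b) = 1`), and the same computation for `kap b a` with `u = a/b`: `a^i` has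
coefficients `ζ^B coeff B (DD^i)` at `α B`, `b^(-i)` has `(jj^i).coeff M` at `β M`. -/
def KXP_stmt : Prop := ∀ (α β : ℕ) (ζ : kkˣ) (l : ℤ), 0 < α → 0 < β →
  (α < β → (kap (sig α ζ DDk) (sig β 1 DDk)).coeff l =
    ∑ A ∈ Icc 1 l.toNat, if (α : ℤ) ∣ l - β * A then
      ((ζ ^ ((l - β * A) / (α : ℤ)) : kkˣ) : kk) * algebraMap (ZMod 2) kk (JG jc A ((l - β * A) / (α : ℤ))) else 0) ∧
  (β < α → (kap (sig α ζ DDk) (sig β 1 DDk)).coeff l = (if l = 0 then 1 else 0) +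
    ∑ B ∈ Icc 1 l.toNat, if (β : ℤ) ∣ l - α * B then
      ((ζ ^ (B : ℤ) : kkˣ) : kk) * algebraMap (ZMod 2) kk (JG jc B ((l - α * B) / (β : ℤ))) else 0)

/-- **CCF** (medium-long, 180 lines; uses KXP, JGN, `URU_stmt` of SpecV (repeated here as a hypothesis `hURU` of the row: `∀ m, Odd m → (∀ ζ, ζ ∈ RU m ↔ ζ^m = 1) ∧ ∀ t : ℤ, ∑ ζ ∈ RU m, ζ^t = [m ∣ t]`)). The sum of the kernels over the conjugates.
Proof. Let `m ∣ n`, `e = n/m`, `α = lam N e/m` (exact; `lam N (n/m)/m = lam (N/m) (n/m)`), `β = μ N`. `α ≠ β`: `lam e ≠ μ m` as `lam e` is odd, `μ` even. Case `α < β`, i.e. `lam e < μ m`: by KXP and URU the sum over `ζ ∈ RU m` of the coefficients at `l` is `∑_A [α ∣ l - β A][m ∣ M] JG jc A M`, `M = (l - β A)/α`; `M = m M'` means `l = N (μ A + lam e M')`. So it is `0` unless `N ∣ l`, `l = N l'`, and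
then it is the sum of the `JG jc A (m M')` over `A ≥ 1`, `M'` with `μ A + lam e M' = l'`. Terms with `M' ≥ 1`: the first sum in `CP` (`m = n/e`). Terms with `M' ≤ 0`: by JGN only `A = -m M'`, `t = -M' ≥ 1`: `l' = t (μ m - lam e)`: exactly one such `t` if `l' ≥ 1` and `μ m - lam e ∣ l'`, else none. For `l ≤ 0` there are no terms. Case `α > β`: the same with
`∑_B [β ∣ l - α B][m ∣ B] JG jc B M`, `M = (l - α B)/β`: `B = m B'`, `l = N (lam e B' + μ M)`; `N ∣ l`: from `β ∣ l - α B`, `β = μ N`, `α B = lam N e B'`. Terms with `M ≥ 1`: `JG jc (m B') M = JG jc M (m B')` (JGN; in `CP` `x.1 = M`, `x.2 = B'`). Terms with `M ≤ 0`: `M = - m B'`, `l' = B' (lam e - μ m)`. Extra constant: `∑_ζ 1 = 1` at `l = 0`. `c` is the number of the `e` with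
`lam e > μ m`. -/
def CCF_stmt : Prop := ∀ (n N μ lam : ℕ), Odd n → Odd N → n ∣ N → Even μ → 0 < μ → Odd lam → ∃ c : kk,
  ∀ l : ℤ, (HC n (lam * N) (fun e ζ => kap (sig e ζ DDk) (sig (μ * N) 1 DDk))).coeff l =
    if l = 0 then c else
      if 0 < l ∧ (N : ℤ) ∣ l then algebraMap (ZMod 2) kk (CP n μ lam (l / N).toNat) else 0

/-! ### Selberg's identity -/

/-- **SGA** (medium, 120 lines; cf. Pool/Agent/helper72/LQ/SEL6.lean). Selberg's identity, positive part, for an arbitrary function `c`. `m` prime to 6.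
Proof. `0 < u < m`, `u` prime to 6: `m^2 - u^2` is divisible by 24. Of `m - u`, `m + u` exactly one is divisible by 4 and exactly one is divisible by 3. If it is the same one write `12 α`, `2 β`: `(m^2-u^2)/24 = α β`, `m = 6 α + β`; this is a bijection of these `u` with the pairs `α, β ≥ 1`, `6 α + β = m` (`u = |6α - β|`; `β` is prime to 6 since `m` is). Otherwise write `4 α`,
`6 β`: `m = 2 α + 3 β`, a bijection with the pairs with `2 α + 3 β = m` (`u = |2α - 3β|`; `β` odd, `3 ∤ α`). -/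
def SGA_stmt : Prop := ∀ (c : ℕ → ZMod 2) (m : ℕ), m.Coprime 6 →
  ∑ u ∈ (range m).filter (fun u => u.Coprime 6), c ((m ^ 2 - u ^ 2) / 24) = KQ c 6 1 m + KQ c 2 3 m

open Classical in
/-- **SGB** (medium, 120 lines). The negative part. `n` odd, `m` prime to 6.
Proof. Let `u > m` with `u^2 = m^2 + 24 2^a n`, `u` prime to 6 (automatic). `(u - m)(u + m) = 24 2^a n`; exactly one factor is divisible by 4 (`u ± m` even, sum `2u`), exactly one by 3. Same one: write `12 α`, `2 β`, `β` odd: `α β = 2^a n`, so `β = e ∣ n`, `α = 2^a (n/e)`, `|6 α - β| = m`, `u = 6 α + β`. Different: `4 α`, `6 β`, `β` odd (as `6β/2 = 3β`; the factor `6 β` is not divisible by 4),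
`β = e`, `α = 2^a (n/e)`, `|2 α - 3 β| = m`, `u = 2 α + 3 β`. Conversely a divisor `e` of `n` with `|6 2^a (n/e) - e| = m` gives `u = 6 2^a (n/e) + e`, `u^2 = m^2 + 24 2^a n`; it is the unique `u`, and `{u - m, u + m} = {12 α, 2 β}` determines `e`; likewise for the second type; the two types exclude each other. So both sides are the same number `0` or `1`. -/
def SGB_stmt : Prop := ∀ a n m : ℕ, Odd n → m.Coprime 6 →
  (if ∃ u : ℕ, u.Coprime 6 ∧ u ^ 2 = m ^ 2 + 24 * (2 ^ a * n) then 1 else 0) =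
    PQ n (6 * 2 ^ a) 1 m + PQ n (2 * 2 ^ a) 3 m

/-- **SGZ** (medium, 100 lines; uses JGN). The numbers `m` not prime to 6. `n` odd, `c L = JG jc n L`.
Proof. `m` even: in `KQ c (6 2^a) 1 m` the `β` is even, in `KQ c (2 2^a) 3 m` too, and `c` vanishes at even numbers (JGN); `|6 2^a (n/e) - e|` and `|2 2^a (n/e) - 3e|` are odd, so all four terms are `0`. `m = 3 m'`: `6 2^a α + β = 3 m'` iff `β = 3 β'`, `2 2^a α + β' = m'`; `2 2^a α + 3 β = 3 m'` iff `α = 3 α'`, `2 2^a α' + β = m'`; in the first case the value is `c (3 α β')`, in the second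
`c (3 α' β)`: equal sums. `|6 2^a (n/e) - e| = 3 m'` iff `e = 3 e'`, `|2 2^a (n/e) - e'| = m'` (`3 e' ∣ n`); `|2 2^a (n/e) - 3 e| = 3 m'` iff `n/e = 3 f`, `|2 2^a f - e| = m'`, `3 f e = n`; `e' ↔ e`, `n/e = f`: the same number. -/
def SGZ_stmt : Prop := ∀ a n m : ℕ, Odd n → 0 < m → ¬ m.Coprime 6 →
  KQ (fun L => JG jc n L) (6 * 2 ^ a) 1 m + KQ (fun L => JG jc n L) (2 * 2 ^ a) 3 m +
    PQ n (6 * 2 ^ a) 1 m + PQ n (2 * 2 ^ a) 3 m = 0

/-- **FCO** (medium, 150 lines; uses JJ0, JGN, DRL, SGA, SGB, `EP.FRO_stmt`, `EP.WM_stmt`, `LQ.TGR_stmt` (the coefficients of `vvx = ∑ q^(u^2)`)). The coefficients of `f` at the squares.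
Proof. `ww vvx = 1`, so `∑_{k ∈ K} ww^(24 2^a k - 1) = vvx * G`, `G = ∑_k ww^(24 2^a k) = ∑_k (ww^(3k))^(8 2^a)` has the coefficient `∑_k (jj^k).coeff L = ∑_{n ∈ NN} JG jc n L` (DRL) at `24 2^a L` (JJ0 (5), FRO) and `0` at all other exponents. `vvx = ∑_u q^(u^2)`, `u > 0` prime to 6. So the coefficient at `m^2` is `∑_n ∑_u [24 2^a ∣ m^2 - u^2] JG jc n ((m^2-u^2)/(24 2^a))` (finite:
`u^2 ≤ m^2 + 24 2^a n`). For fixed `n`: `u < m`: SGA with `c L = JG jc n (L/2^a)` if `2^a ∣ L`, else `0`: in `KQ c 6 1 m` and `KQ c 2 3 m` `β` is odd, so `2^a ∣ α`, and they are `KQ (JG jc n) (6 2^a) 1 m`, `KQ (JG jc n) (2 2^a) 3 m`. `u = m`: `JG jc n 0 = 0`. `u > m`: JGN: only `L = -n`, i.e. `u^2 = m^2 + 24 2^a n`: SGB. -/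
def FCO_stmt : Prop := ∀ (NN K : Finset ℕ) (a m : ℕ), Rel NN K → m.Coprime 6 →
  (∑ k ∈ K, ww ^ (24 * (2 ^ a * k) - 1)).coeff ((m : ℤ) ^ 2) =
    ∑ n ∈ NN, (KQ (fun L => JG jc n L) (6 * 2 ^ a) 1 m + KQ (fun L => JG jc n L) (2 * 2 ^ a) 3 m +
      PQ n (6 * 2 ^ a) 1 m + PQ n (2 * 2 ^ a) 3 m)

/-- **LAM** (medium, 130 lines; uses HCM, JGN). The Lambert sums. `μ` even, `lam` odd, `n` odd, `l ≥ 1`.
Proof. `∑_{m ∣ l} KQ c μ lam m`: with `d = l/m` and `(A, B) = (d α, d β)` it is the sum over the pairs `A, B ≥ 1` with `μ A + lam B = l` of `∑_{d ∣ gcd (A, B)} c(A B/d^2)` (`d ∣ A, B` implies `d ∣ l`), `c L = JG jc n L`; by HCM the inner sum is `∑_{e ∣ gcd(n, B)} JG jc A (n B/e^2)`; write `B = e B'`: `n B/e^2 = (n/e) B'`. This is the first part of `CP`.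
`∑_{m ∣ l} PQ n μ lam m`: for every `e ∣ n` the number `|μ (n/e) - lam e|` is positive (odd), and it is counted (once) iff it divides `l`: the second part of `CP`. -/
def LAM_stmt : Prop := ∀ n μ lam l : ℕ, Odd n → Even μ → 0 < μ → Odd lam → 0 < l →
  ∑ m ∈ l.divisors, (KQ (fun L => JG jc n L) μ lam m + PQ n μ lam m) = CP n μ lam l

/-- **SEL** (medium, 110 lines; uses FCO, SGZ, LAM, CCF, FBN). Block S.
Proof. `sig (3N) 1 DDk ^ 2^(a+1) = sig (2^(a+1) (3 N)) 1 DDk = sig (6 2^a N) 1 DDk`, `sig N 1 DDk ^ 2^(a+1) = sig (2 2^a N) 1 DDk` (FBN). By CCF (with `(μ, lam) = (6 2^a, 1)` and `(2 2^a, 3)`; `HC n (1 * N) = HC n N`) `XI N A NN` has at `l ≠ 0` the coefficient `0` unless `l = N l'`, `l' ≥ 1`, and then `∑_a ∑_{n ∈ NN a} (CP n (6 2^a) 1 l' + CP n (2 2^a) 3 l')`. `sig N 1 (psi f)` has coefficient `0` unless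
`l = N l'`, `l' ≥ 1` (`psi` has no coefficients at exponents `≤ 0`: `Nat.divisors 0 = ∅`), and then `∑_{m ∣ l', (m,6)=1} f.coeff (m^2)`. By FCO and SGZ (the terms with `m` not prime to 6 are `0`) this is `∑_a ∑_n ∑_{m ∣ l'} (KQ + KQ + PQ + PQ)`, which is the same by LAM. `c` is the constant coefficient of `XI`. -/
def SEL_stmt : Prop := ∀ (N A : ℕ) (NN K : ℕ → Finset ℕ), Odd N → (∀ a < A, Rel (NN a) (K a)) →
  (∀ a < A, ∀ n ∈ NN a, n ∣ N) → ∃ c : kk,
  sig N 1 (psi (fK A K)) = algebraMap kk LL c + XI N A NN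

end Pool.Agent.QP
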