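import Pool.Agent.helper19.QP.SpecV
import Pool.Agent.helper19.QP.SpecS

set_option autoImplicit false

open Finset

noncomputable section

namespace Pool.Agent.QP

open Pool.Agent.helper7.IG (kk LL sig DDk MM im2 ps Vx Nb Frame)
open Pool.Agent.LQ (FF DD)
open Pool.Agent.EP (KK ww vvx WW JG ac pp IsT)

theorem CCF_ediv (r x : ℤ) (hr : 0 < r) (hx : x ≤ 0) : x / r ≤ 0 := by
  have h := Int.ediv_le_ediv hr hx
  rwa [Int.zero_ediv] at h

theorem CCF_G (p r u w l' L : ℕ) (F : ℕ → ℤ → ZMod 2) (hp : 0 < p) (hr : 0 < r) (hu : 0 < u)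
    (hl : 0 < l') (hlt : r * w < p * u) (hL1 : l' ≤ L) (hL2 : u * l' ≤ L)
    (hF : ∀ (A : ℕ) (M : ℤ), 0 < A → M ≤ 0 → ((∃ t : ℕ, A = u * t ∧ M = -((w * t : ℕ) : ℤ)) → F A M = 1) ∧
      ((¬ ∃ t : ℕ, A = u * t ∧ M = -((w * t : ℕ) : ℤ)) → F A M = 0)) :
    ∑ A ∈ Icc 1 L, (if (r : ℤ) ∣ (l' : ℤ) - p * A then F A (((l' : ℤ) - p * A) / r) else 0) =
      ∑ x ∈ (Icc 1 l' ×ˢ Icc 1 l').filter (fun x => p * x.1 + r * x.2 = l'), F x.1 (x.2 : ℤ) +
      if ((p * u : ℕ) : ℤ) - ((r * w : ℕ) : ℤ) ∣ (l' : ℤ) then 1 else 0 := by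
  have hr' : (0 : ℤ) < r := by exact_mod_cast hr
  have h1 : ∀ A ∈ Icc 1 L, (if (r : ℤ) ∣ (l' : ℤ) - p * A then F A (((l' : ℤ) - p * A) / r) else 0) =
      (if (r : ℤ) ∣ (l' : ℤ) - p * A ∧ 0 < (l' : ℤ) - p * A then F A (((l' : ℤ) - p * A) / r) else 0) +
      (if (r : ℤ) ∣ (l' : ℤ) - p * A ∧ (l' : ℤ) - p * A ≤ 0 then F A (((l' : ℤ) - p * A) / r) else 0) := by
    intro A _
    by_cases ha : (r : ℤ) ∣ (l' : ℤ) - p * A
    · by_cases hb : 0 < (l' : ℤ) - p * A
      · rw [if_pos ha, if_pos ⟨ha, hb⟩, if_neg (fun h => absurd h.2 (not_le.mpr hb)), add_zero]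
      · rw [if_pos ha, if_neg (fun h => hb h.2), if_pos ⟨ha, not_lt.mp hb⟩, zero_add]
    · rw [if_neg ha, if_neg (fun h => ha h.1), if_neg (fun h => ha h.1), add_zero]
  rw [Finset.sum_congr rfl h1, Finset.sum_add_distrib]
  congr 1
  · rw [← Finset.sum_filter]
    refine Finset.sum_bij' (fun A _ => (A, (((l' : ℤ) - p * A) / r).toNat)) (fun x _ => x.1) ?_ ?_ ?_ ?_ ?_
    · intro A hA
      rw [mem_filter, mem_Icc] at hA
      obtain ⟨⟨hA1, hA2⟩, ⟨M, hM⟩, hA4⟩ := hA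
      have hM0 : 0 < M := by
        rw [hM] at hA4
        exact (mul_pos_iff_of_pos_left hr').mp hA4
      have h2 : ((l' : ℤ) - p * A) / r = M := by
        rw [hM]; exact Int.mul_ediv_cancel_left _ hr'.ne'
      obtain ⟨M', rfl⟩ := Int.eq_ofNat_of_zero_le hM0.le
      have h3 : p * A + r * M' = l' := by
        have h4 : (l' : ℤ) = p * A + r * M' := by
          have := hM
          linarith
        exact_mod_cast h4.symm
      have hM'0 : 0 < M' := by exact_mod_cast hM0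
      simp only [h2, Int.toNat_natCast]
      rw [mem_filter, mem_product, mem_Icc, mem_Icc]
      refine ⟨⟨⟨hA1, ?_⟩, ⟨hM'0, ?_⟩⟩, h3⟩
      · have h5 : A ≤ p * A := Nat.le_mul_of_pos_left A hp
        show A ≤ l'
        omega
      · have h5 : M' ≤ r * M' := Nat.le_mul_of_pos_left M' hr
        show M' ≤ l'
        omega
    · intro x hx
      rw [mem_filter, mem_product, mem_Icc, mem_Icc] at hx
      obtain ⟨⟨⟨h2, h3⟩, ⟨h4, h5⟩⟩, h6⟩ := hx
      rw [mem_filter, mem_Icc]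
      have h7 : (l' : ℤ) - p * x.1 = r * x.2 := by
        have h8 : (l' : ℤ) = p * x.1 + r * x.2 := by exact_mod_cast h6.symm
        linarith
      rw [h7]
      refine ⟨⟨h2, h3.trans hL1⟩, Dvd.intro _ rfl, mul_pos hr' (by exact_mod_cast h4)⟩
    · intro A _
      rfl
    · intro x hx
      rw [mem_filter, mem_product, mem_Icc, mem_Icc] at hx
      obtain ⟨⟨⟨h2, h3⟩, ⟨h4, h5⟩⟩, h6⟩ := hx
      have h7 : (l' : ℤ) - p * x.1 = r * x.2 := by
        have h8 : (l' : ℤ) = p * x.1 + r * x.2 := by exact_mod_cast h6.symm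
        linarith
      refine Prod.ext rfl ?_
      show (((l' : ℤ) - p * x.1) / r).toNat = x.2
      rw [h7, Int.mul_ediv_cancel_left _ hr'.ne', Int.toNat_natCast]
    · intro A hA
      rw [mem_filter, mem_Icc] at hA
      obtain ⟨⟨hA1, hA2⟩, ⟨M, hM⟩, hA4⟩ := hA
      have hM0 : 0 < M := by
        rw [hM] at hA4
        exact (mul_pos_iff_of_pos_left hr').mp hA4
      have h2 : ((l' : ℤ) - p * A) / r = M := by
        rw [hM]; exact Int.mul_ediv_cancel_left _ hr'.ne'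
      show F A (((l' : ℤ) - p * A) / r) = F A ((((l' : ℤ) - p * A) / r).toNat : ℤ)
      rw [h2, Int.toNat_of_nonneg hM0.le]
  · have hd : (0 : ℤ) < ((p * u : ℕ) : ℤ) - ((r * w : ℕ) : ℤ) := by
      have : ((r * w : ℕ) : ℤ) < ((p * u : ℕ) : ℤ) := by exact_mod_cast hlt
      linarith
    have key : ∀ A : ℕ, 0 < A → (r : ℤ) ∣ (l' : ℤ) - p * A → (l' : ℤ) - p * A ≤ 0 →
        ∀ t : ℕ, (A = u * t ∧ ((l' : ℤ) - p * A) / r = -((w * t : ℕ) : ℤ)) →
          (l' : ℤ) = (((p * u : ℕ) : ℤ) - ((r * w : ℕ) : ℤ)) * t := by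
      intro A _ hdv _ t ht
      obtain ⟨M, hM⟩ := hdv
      obtain ⟨h2, h3⟩ := ht
      rw [hM, Int.mul_ediv_cancel_left _ hr'.ne'] at h3
      rw [h3, h2] at hM
      push_cast at hM ⊢
      linarith
    by_cases hdl : ((p * u : ℕ) : ℤ) - ((r * w : ℕ) : ℤ) ∣ (l' : ℤ)
    · rw [if_pos hdl]
      obtain ⟨t0, ht0⟩ := hdl
      have ht0' : 0 < t0 := by
        have h2 : (0 : ℤ) < (((p * u : ℕ) : ℤ) - ((r * w : ℕ) : ℤ)) * t0 := by
          rw [← ht0]; exact_mod_cast hl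
        exact (mul_pos_iff_of_pos_left hd).mp h2
      obtain ⟨t, rfl⟩ := Int.eq_ofNat_of_zero_le ht0'.le
      have ht : 0 < t := by exact_mod_cast ht0'
      have htl : t ≤ l' := by
        have h2 : (t : ℤ) ≤ (((p * u : ℕ) : ℤ) - ((r * w : ℕ) : ℤ)) * t := by
          have h3 : (1 : ℤ) ≤ ((p * u : ℕ) : ℤ) - ((r * w : ℕ) : ℤ) := hd
          nlinarith
        rw [← ht0] at h2
        exact_mod_cast h2
      have hval : (l' : ℤ) - p * (u * t : ℕ) = r * (-((w * t : ℕ) : ℤ)) := by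
        rw [ht0]; push_cast; ring
      rw [Finset.sum_eq_single_of_mem (u * t)]
      · rw [if_pos]
        · rw [hval, Int.mul_ediv_cancel_left _ hr'.ne']
          refine (hF (u * t) _ (Nat.mul_pos hu ht) ?_).1 ⟨t, rfl, rfl⟩
          have : (0 : ℤ) ≤ ((w * t : ℕ) : ℤ) := Int.natCast_nonneg _
          linarith
        · rw [hval]
          refine ⟨Dvd.intro _ rfl, ?_⟩
          have h2 : (0 : ℤ) ≤ ((w * t : ℕ) : ℤ) := Int.natCast_nonneg _
          nlinarith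
      · rw [mem_Icc]
        refine ⟨Nat.mul_pos hu ht, le_trans ?_ hL2⟩
        exact Nat.mul_le_mul_left u htl
      · intro A hA hne
        rw [mem_Icc] at hA
        split_ifs with h2
        · refine (hF A _ hA.1 ?_).2 ?_
          · exact CCF_ediv r _ hr' h2.2
          · rintro ⟨t', ht'⟩
            have h3 := key A hA.1 h2.1 h2.2 t' ht'
            rw [ht0] at h3
            have h4 : (t : ℤ) = t' := mul_left_cancel₀ hd.ne' h3
            have h5 : t = t' := by exact_mod_cast h4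
            exact hne (by rw [h5]; exact ht'.1)
        · rfl
    · rw [if_neg hdl]
      refine Finset.sum_eq_zero ?_
      intro A hA
      rw [mem_Icc] at hA
      split_ifs with h2
      · refine (hF A _ hA.1 ?_).2 ?_
        · exact CCF_ediv r _ hr' h2.2
        · rintro ⟨t', ht'⟩
          have h3 := key A hA.1 h2.1 h2.2 t' ht'
          exact hdl (Dvd.intro _ h3.symm)
      · rfl

/-- The second factor of the term in `CP`. -/
def CCF_cp (m r μ l : ℕ) : ZMod 2 :=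
  ∑ x ∈ (Icc 1 l ×ˢ Icc 1 l).filter (fun x => μ * x.1 + r * x.2 = l),
        JG jc x.1 ((m : ℕ) * (x.2 : ℤ)) +
      if (((μ * m : ℕ) : ℤ) - ((r : ℕ) : ℤ)) ∣ (l : ℤ) then 1 else 0

theorem CCF_A (hJGN : JGN_stmt) (m N' μ r l' : ℕ) (hm : 0 < m) (hN' : 0 < N') (hμ : 0 < μ)
    (hr : 0 < r) (hl : 0 < l') (hlt : r < μ * m) :
    ∑ A ∈ Icc 1 (m * N' * l'), (if ((r * N' : ℕ) : ℤ) ∣ ((m * N' * l' : ℕ) : ℤ) - ((μ * (m * N') : ℕ) : ℤ) * A ∧
        (m : ℤ) ∣ (((m * N' * l' : ℕ) : ℤ) - ((μ * (m * N') : ℕ) : ℤ) * A) / ((r * N' : ℕ) : ℤ) then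
        JG jc A ((((m * N' * l' : ℕ) : ℤ) - ((μ * (m * N') : ℕ) : ℤ) * A) / ((r * N' : ℕ) : ℤ)) else 0) =
      CCF_cp m r μ l' := by
  have hm' : (0 : ℤ) < m := by exact_mod_cast hm
  have hN'' : (0 : ℤ) < N' := by exact_mod_cast hN'
  have hr' : (0 : ℤ) < r := by exact_mod_cast hr
  have hG := CCF_G μ r m 1 l' (m * N' * l') (fun A M => JG jc A (m * M)) hμ hr hm hl
    (by rw [mul_one]; exact hlt)
    (Nat.le_mul_of_pos_left l' (Nat.mul_pos hm hN'))
    (by
      have : m * l' ≤ N' * (m * l') := Nat.le_mul_of_pos_left _ hN'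
      calc m * l' ≤ N' * (m * l') := this
        _ = m * N' * l' := by ring)
    (by
      intro A M hA hM
      have h1 := hJGN.1 A (m * M) hA (mul_nonpos_of_nonneg_of_nonpos hm'.le hM)
      have h2 : (∃ t : ℕ, A = m * t ∧ M = -((1 * t : ℕ) : ℤ)) ↔ (m : ℤ) * M = -(A : ℤ) := by
        constructor
        · rintro ⟨t, rfl, rfl⟩
          push_cast
          ring
        · intro h
          refine ⟨(-M).toNat, ?_, ?_⟩
          · have h3 : (((-M).toNat : ℕ) : ℤ) = -M := Int.toNat_of_nonneg (by linarith)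
            have h4 : (A : ℤ) = ((m * (-M).toNat : ℕ) : ℤ) := by
              push_cast [h3]
              linarith
            exact_mod_cast h4
          · have h3 : (((-M).toNat : ℕ) : ℤ) = -M := Int.toNat_of_nonneg (by linarith)
            push_cast [h3]
            ring
      rw [h2]
      constructor
      · intro h
        show JG jc A (m * M) = 1
        rw [h1, if_pos h]
      · intro h
        show JG jc A (m * M) = 0
        rw [h1, if_neg h])
  rw [mul_one] at hG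
  unfold CCF_cp
  rw [← hG]
  refine Finset.sum_congr rfl ?_
  intro A _
  have hx : ((m * N' * l' : ℕ) : ℤ) - ((μ * (m * N') : ℕ) : ℤ) * A = m * N' * ((l' : ℤ) - μ * A) := by
    push_cast; ring
  rw [hx]
  by_cases h : (r : ℤ) ∣ (l' : ℤ) - μ * A
  · rw [if_pos h]
    obtain ⟨M, hM⟩ := h
    have h1 : (m : ℤ) * N' * ((l' : ℤ) - μ * A) = ((r * N' : ℕ) : ℤ) * (m * M) := by
      rw [hM]; push_cast; ring
    have h2 : ((r * N' : ℕ) : ℤ) ≠ 0 := by
      have : 0 < r * N' := Nat.mul_pos hr hN'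
      exact_mod_cast this.ne'
    rw [h1, hM, Int.mul_ediv_cancel_left _ h2, Int.mul_ediv_cancel_left _ hr'.ne',
      if_pos ⟨Dvd.intro _ rfl, Dvd.intro _ rfl⟩]
  · rw [if_neg h, if_neg]
    rintro ⟨⟨X, hX⟩, hd⟩
    have h2 : ((r * N' : ℕ) : ℤ) ≠ 0 := by
      have : 0 < r * N' := Nat.mul_pos hr hN'
      exact_mod_cast this.ne'
    rw [hX, Int.mul_ediv_cancel_left _ h2] at hd
    obtain ⟨Y, rfl⟩ := hd
    apply h
    refine ⟨Y, ?_⟩
    have h3 : (m : ℤ) * N' ≠ 0 := (mul_pos hm' hN'').ne'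
    apply mul_left_cancel₀ h3
    rw [hX]; push_cast; ring

theorem CCF_multiples (m L : ℕ) (hm : 0 < m) (f : ℕ → ZMod 2) :
    ∑ B ∈ Icc 1 (m * L), (if m ∣ B then f B else 0) = ∑ B ∈ Icc 1 L, f (m * B) := by
  rw [← Finset.sum_filter]
  refine Finset.sum_bij' (fun B _ => B / m) (fun B _ => m * B) ?_ ?_ ?_ ?_ ?_
  · intro B hB
    rw [mem_filter, mem_Icc] at hB
    obtain ⟨⟨h1, h2⟩, ⟨C, rfl⟩⟩ := hB
    show m * C / m ∈ Icc 1 L
    rw [Nat.mul_div_cancel_left _ hm, mem_Icc]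
    refine ⟨?_, Nat.le_of_mul_le_mul_left h2 hm⟩
    rcases Nat.eq_zero_or_pos C with h | h
    · rw [h, mul_zero] at h1; omega
    · exact h
  · intro B hB
    rw [mem_Icc] at hB
    show m * B ∈ _
    rw [mem_filter, mem_Icc]
    exact ⟨⟨Nat.mul_pos hm hB.1, Nat.mul_le_mul_left m hB.2⟩, Dvd.intro _ rfl⟩
  · intro B hB
    rw [mem_filter] at hB
    exact Nat.mul_div_cancel' hB.2
  · intro B _
    exact Nat.mul_div_cancel_left _ hm
  · intro B hB
    rw [mem_filter] at hB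
    show f B = f (m * (B / m))
    rw [Nat.mul_div_cancel' hB.2]

theorem CCF_B (hJGN : JGN_stmt) (m N' μ r l' : ℕ) (hm : 0 < m) (hN' : 0 < N') (hμ : 0 < μ)
    (hr : 0 < r) (hl : 0 < l') (hlt : μ * m < r) :
    ∑ B ∈ Icc 1 (m * N' * l'), (if ((μ * (m * N') : ℕ) : ℤ) ∣ ((m * N' * l' : ℕ) : ℤ) - ((r * N' : ℕ) : ℤ) * B ∧
        (m : ℤ) ∣ (B : ℤ) then
        JG jc B ((((m * N' * l' : ℕ) : ℤ) - ((r * N' : ℕ) : ℤ) * B) / ((μ * (m * N') : ℕ) : ℤ)) else 0) =
      CCF_cp m r μ l' := by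
  have hm' : (0 : ℤ) < m := by exact_mod_cast hm
  have hN'' : (0 : ℤ) < N' := by exact_mod_cast hN'
  have hr' : (0 : ℤ) < r := by exact_mod_cast hr
  have hμ' : (0 : ℤ) < μ := by exact_mod_cast hμ
  have hG := CCF_G r μ 1 m l' (N' * l') (fun B M => JG jc (m * B) M) hr hμ one_pos hl
    (by rw [mul_one]; exact hlt)
    (Nat.le_mul_of_pos_left l' hN')
    (by rw [one_mul]; exact Nat.le_mul_of_pos_left l' hN')
    (by
      intro B M hB hM
      have h1 := hJGN.1 (m * B) M (Nat.mul_pos hm hB) hM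
      have h2 : (∃ t : ℕ, B = 1 * t ∧ M = -((m * t : ℕ) : ℤ)) ↔ M = -((m * B : ℕ) : ℤ) := by
        constructor
        · rintro ⟨t, rfl, rfl⟩
          rw [one_mul]
        · intro h
          exact ⟨B, (one_mul B).symm, h⟩
      rw [h2]
      constructor
      · intro h
        show JG jc (m * B) M = 1
        rw [h1, if_pos h]
      · intro h
        show JG jc (m * B) M = 0
        rw [h1, if_neg h])
  rw [mul_one] at hG
  have hmult := CCF_multiples m (N' * l') hm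
    (fun B => if ((μ * (m * N') : ℕ) : ℤ) ∣ ((m * N' * l' : ℕ) : ℤ) - ((r * N' : ℕ) : ℤ) * B then
      JG jc B ((((m * N' * l' : ℕ) : ℤ) - ((r * N' : ℕ) : ℤ) * B) / ((μ * (m * N') : ℕ) : ℤ)) else 0)
  have hL : ∑ B ∈ Icc 1 (m * N' * l'), (if ((μ * (m * N') : ℕ) : ℤ) ∣ ((m * N' * l' : ℕ) : ℤ) - ((r * N' : ℕ) : ℤ) * B ∧
        (m : ℤ) ∣ (B : ℤ) then
        JG jc B ((((m * N' * l' : ℕ) : ℤ) - ((r * N' : ℕ) : ℤ) * B) / ((μ * (m * N') : ℕ) : ℤ)) else 0) =
      ∑ B ∈ Icc 1 (N' * l'), (if (μ : ℤ) ∣ (l' : ℤ) - r * B then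
        JG jc (m * B) (((l' : ℤ) - r * B) / μ) else 0) := by
    rw [show m * N' * l' = m * (N' * l') by ring] at hmult ⊢
    have h1 : ∀ B ∈ Icc 1 (m * (N' * l')), (if ((μ * (m * N') : ℕ) : ℤ) ∣ ((m * (N' * l') : ℕ) : ℤ) - ((r * N' : ℕ) : ℤ) * B ∧
        (m : ℤ) ∣ (B : ℤ) then
        JG jc B ((((m * (N' * l') : ℕ) : ℤ) - ((r * N' : ℕ) : ℤ) * B) / ((μ * (m * N') : ℕ) : ℤ)) else 0) =
        if m ∣ B then (if ((μ * (m * N') : ℕ) : ℤ) ∣ ((m * (N' * l') : ℕ) : ℤ) - ((r * N' : ℕ) : ℤ) * B then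
      JG jc B ((((m * (N' * l') : ℕ) : ℤ) - ((r * N' : ℕ) : ℤ) * B) / ((μ * (m * N') : ℕ) : ℤ)) else 0) else 0 := by
      intro B _
      by_cases hB : m ∣ B
      · rw [if_pos hB]
        have hB' : (m : ℤ) ∣ (B : ℤ) := by exact_mod_cast hB
        by_cases hd : ((μ * (m * N') : ℕ) : ℤ) ∣ ((m * (N' * l') : ℕ) : ℤ) - ((r * N' : ℕ) : ℤ) * B
        · rw [if_pos hd, if_pos ⟨hd, hB'⟩]
        · rw [if_neg hd, if_neg (fun h => hd h.1)]
      · rw [if_neg hB, if_neg]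
        rintro ⟨_, h⟩
        exact hB (by exact_mod_cast h)
    rw [Finset.sum_congr rfl h1, hmult]
    refine Finset.sum_congr rfl ?_
    intro B _
    have hx : ((m * (N' * l') : ℕ) : ℤ) - ((r * N' : ℕ) : ℤ) * ((m * B : ℕ) : ℤ) =
        m * N' * ((l' : ℤ) - r * B) := by
      push_cast; ring
    rw [hx]
    have h3 : (m : ℤ) * N' ≠ 0 := (mul_pos hm' hN'').ne'
    by_cases h : (μ : ℤ) ∣ (l' : ℤ) - r * B
    · rw [if_pos h]
      obtain ⟨M, hM⟩ := h
      have h1 : (m : ℤ) * N' * ((l' : ℤ) - r * B) = ((μ * (m * N') : ℕ) : ℤ) * M := by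
        rw [hM]; push_cast; ring
      have h2 : ((μ * (m * N') : ℕ) : ℤ) ≠ 0 := by
        have : 0 < μ * (m * N') := Nat.mul_pos hμ (Nat.mul_pos hm hN')
        exact_mod_cast this.ne'
      rw [h1, hM, Int.mul_ediv_cancel_left _ h2, Int.mul_ediv_cancel_left _ hμ'.ne',
        if_pos (Dvd.intro _ rfl)]
    · rw [if_neg h, if_neg]
      rintro ⟨X, hX⟩
      apply h
      refine ⟨X, ?_⟩
      apply mul_left_cancel₀ h3
      rw [hX]; push_cast; ring
  rw [hL, hG]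
  unfold CCF_cp
  congr 1
  · refine Finset.sum_bij' (fun x _ => (x.2, x.1)) (fun x _ => (x.2, x.1)) ?_ ?_ ?_ ?_ ?_
    · intro x hx
      rw [mem_filter, mem_product] at hx ⊢
      exact ⟨⟨hx.1.2, hx.1.1⟩, by rw [← hx.2]; ring⟩
    · intro x hx
      rw [mem_filter, mem_product] at hx ⊢
      exact ⟨⟨hx.1.2, hx.1.1⟩, by rw [← hx.2]; ring⟩
    · intro x _
      rfl
    · intro x _
      rfl
    · intro x hx
      rw [mem_filter, mem_product, mem_Icc, mem_Icc] at hx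
      show JG jc (m * x.1) (x.2 : ℤ) = JG jc x.2 ((m : ℤ) * (x.1 : ℤ))
      have h := hJGN.2.1 (m * x.1) x.2 (Nat.mul_pos hm hx.1.1.1) hx.1.2.1
      rw [h]
      push_cast
      rfl
  · have h5 : (((r : ℕ) : ℤ) - ((μ * m : ℕ) : ℤ)) ∣ (l' : ℤ) ↔ (((μ * m : ℕ) : ℤ) - ((r : ℕ) : ℤ)) ∣ (l' : ℤ) := by
      rw [← neg_dvd, neg_sub]
    by_cases h6 : (((μ * m : ℕ) : ℤ) - ((r : ℕ) : ℤ)) ∣ (l' : ℤ)
    · rw [if_pos h6, if_pos (h5.mpr h6)]
    · rw [if_neg h6, if_neg (fun h => h6 (h5.mp h))]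

theorem CCF_zsum (hURU : URU_stmt) (m : ℕ) (hm : Odd m) (t : ℤ) (J : ZMod 2) :
    ∑ ζ ∈ RU m, ((ζ ^ t : kkˣ) : kk) * algebraMap (ZMod 2) kk J =
      algebraMap (ZMod 2) kk (if (m : ℤ) ∣ t then J else 0) := by
  rw [← Finset.sum_mul, (hURU m hm).2 t]
  split_ifs
  · rw [one_mul]
  · rw [zero_mul, map_zero]

theorem CCF_one (hURU : URU_stmt) (hKXP : KXP_stmt) (hJGN : JGN_stmt) (m N' μ r : ℕ) (hm : Odd m)
    (hN' : 0 < N') (hμ : 0 < μ) (hr : 0 < r) (hne : r ≠ μ * m) (l : ℤ) :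
    ∑ ζ ∈ RU m, (kap (sig (r * N') ζ DDk) (sig (μ * (m * N')) 1 DDk)).coeff l =
      if l = 0 then (if r < μ * m then 0 else 1) else
        if 0 < l ∧ ((m * N' : ℕ) : ℤ) ∣ l then
          algebraMap (ZMod 2) kk (CCF_cp m r μ (l / ((m * N' : ℕ) : ℤ)).toNat) else 0 := by
  have hm0 : 0 < m := hm.pos
  have hα : 0 < r * N' := Nat.mul_pos hr hN'
  have hβ : 0 < μ * (m * N') := Nat.mul_pos hμ (Nat.mul_pos hm0 hN')
  have hmN : 0 < m * N' := Nat.mul_pos hm0 hN'
  have hmN' : (0 : ℤ) < ((m * N' : ℕ) : ℤ) := by exact_mod_cast hmN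
  have hα' : ((r * N' : ℕ) : ℤ) ≠ 0 := by exact_mod_cast hα.ne'
  have hβ' : ((μ * (m * N') : ℕ) : ℤ) ≠ 0 := by exact_mod_cast hβ.ne'
  rcases lt_or_gt_of_ne hne with hlt | hgt
  · have hαβ : r * N' < μ * (m * N') := by
      have h := Nat.mul_lt_mul_of_pos_right hlt hN'
      calc r * N' < μ * m * N' := h
        _ = μ * (m * N') := by ring
    have h1 : ∑ ζ ∈ RU m, (kap (sig (r * N') ζ DDk) (sig (μ * (m * N')) 1 DDk)).coeff l =
        algebraMap (ZMod 2) kk (∑ A ∈ Icc 1 l.toNat, (if ((r * N' : ℕ) : ℤ) ∣ l - ((μ * (m * N') : ℕ) : ℤ) * A ∧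
        (m : ℤ) ∣ (l - ((μ * (m * N') : ℕ) : ℤ) * A) / ((r * N' : ℕ) : ℤ) then
        JG jc A ((l - ((μ * (m * N') : ℕ) : ℤ) * A) / ((r * N' : ℕ) : ℤ)) else 0)) := by
      have h2 : ∀ ζ ∈ RU m, (kap (sig (r * N') ζ DDk) (sig (μ * (m * N')) 1 DDk)).coeff l = _ :=
        fun ζ _ => (hKXP (r * N') (μ * (m * N')) ζ l hα hβ).1 hαβ
      rw [Finset.sum_congr rfl h2, Finset.sum_comm, map_sum]
      refine Finset.sum_congr rfl ?_
      intro A _
      by_cases hd : ((r * N' : ℕ) : ℤ) ∣ l - ((μ * (m * N') : ℕ) : ℤ) * A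
      · have h3 : ∀ ζ ∈ RU m, (if ((r * N' : ℕ) : ℤ) ∣ l - ((μ * (m * N') : ℕ) : ℤ) * A then
            ((ζ ^ ((l - ((μ * (m * N') : ℕ) : ℤ) * A) / ((r * N' : ℕ) : ℤ)) : kkˣ) : kk) *
              algebraMap (ZMod 2) kk (JG jc A ((l - ((μ * (m * N') : ℕ) : ℤ) * A) / ((r * N' : ℕ) : ℤ))) else 0) =
            ((ζ ^ ((l - ((μ * (m * N') : ℕ) : ℤ) * A) / ((r * N' : ℕ) : ℤ)) : kkˣ) : kk) *
              algebraMap (ZMod 2) kk (JG jc A ((l - ((μ * (m * N') : ℕ) : ℤ) * A) / ((r * N' : ℕ) : ℤ))) :=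
          fun ζ _ => if_pos hd
        rw [Finset.sum_congr rfl h3, CCF_zsum hURU m hm]
        congr 1
        by_cases hd2 : (m : ℤ) ∣ (l - ((μ * (m * N') : ℕ) : ℤ) * A) / ((r * N' : ℕ) : ℤ)
        · rw [if_pos hd2, if_pos ⟨hd, hd2⟩]
        · rw [if_neg hd2, if_neg (fun h => hd2 h.2)]
      · rw [if_neg (fun h => hd h.1), map_zero]
        refine Finset.sum_eq_zero ?_
        intro ζ _
        exact if_neg hd
    rw [h1]
    by_cases hl0 : l = 0
    · subst hl0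
      rw [if_pos rfl, if_pos hlt]
      simp
    · rw [if_neg hl0]
      by_cases hl : 0 < l ∧ ((m * N' : ℕ) : ℤ) ∣ l
      · rw [if_pos hl]
        obtain ⟨hl1, ⟨l2, rfl⟩⟩ := hl
        have hl2 : 0 < l2 := (mul_pos_iff_of_pos_left hmN').mp hl1
        obtain ⟨l', rfl⟩ := Int.eq_ofNat_of_zero_le hl2.le
        have hl' : 0 < l' := by exact_mod_cast hl2
        have h3 := CCF_A hJGN m N' μ r l' hm0 hN' hμ hr hl' hlt
        rw [Int.mul_ediv_cancel_left _ hmN'.ne', Int.toNat_natCast, ← h3]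
        have h4 : ((m * N' : ℕ) : ℤ) * (l' : ℤ) = ((m * N' * l' : ℕ) : ℤ) := by push_cast; ring
        rw [h4, Int.toNat_natCast]
      · rw [if_neg hl]
        have h5 : (0 : kk) = algebraMap (ZMod 2) kk 0 := (map_zero _).symm
        rw [h5]
        congr 1
        refine Finset.sum_eq_zero ?_
        intro A hA
        rw [mem_Icc] at hA
        have hlp : 0 < l := by
          by_contra h
          have : l.toNat = 0 := Int.toNat_eq_zero.mpr (not_lt.mp h)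
          omega
        rw [if_neg]
        rintro ⟨⟨X, hX⟩, hd⟩
        rw [hX, Int.mul_ediv_cancel_left _ hα'] at hd
        obtain ⟨Y, rfl⟩ := hd
        apply hl
        refine ⟨hlp, ⟨μ * A + r * Y, ?_⟩⟩
        have h6 : l = ((μ * (m * N') : ℕ) : ℤ) * A + ((r * N' : ℕ) : ℤ) * (m * Y) := by linarith
        rw [h6]; push_cast; ring
  · have hαβ : μ * (m * N') < r * N' := by
      have h := Nat.mul_lt_mul_of_pos_right hgt hN'
      calc μ * (m * N') = μ * m * N' := by ring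
        _ < r * N' := h
    have h1 : ∑ ζ ∈ RU m, (kap (sig (r * N') ζ DDk) (sig (μ * (m * N')) 1 DDk)).coeff l =
        (if l = 0 then 1 else 0) +
        algebraMap (ZMod 2) kk (∑ B ∈ Icc 1 l.toNat, (if ((μ * (m * N') : ℕ) : ℤ) ∣ l - ((r * N' : ℕ) : ℤ) * B ∧
        (m : ℤ) ∣ (B : ℤ) then
        JG jc B ((l - ((r * N' : ℕ) : ℤ) * B) / ((μ * (m * N') : ℕ) : ℤ)) else 0)) := by
      have h2 : ∀ ζ ∈ RU m, (kap (sig (r * N') ζ DDk) (sig (μ * (m * N')) 1 DDk)).coeff l = _ :=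
        fun ζ _ => (hKXP (r * N') (μ * (m * N')) ζ l hα hβ).2 hαβ
      rw [Finset.sum_congr rfl h2, Finset.sum_add_distrib, Finset.sum_comm, map_sum]
      congr 1
      · by_cases hl0 : l = 0
        · rw [if_pos hl0]
          have h3 := (hURU m hm).2 0
          rw [if_pos (dvd_zero _)] at h3
          refine Eq.trans ?_ h3
          refine Finset.sum_congr rfl ?_
          intro ζ _
          rw [zpow_zero, Units.val_one]
        · rw [if_neg hl0]
          exact Finset.sum_eq_zero (fun ζ _ => rfl)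
      · refine Finset.sum_congr rfl ?_
        intro B _
        by_cases hd : ((μ * (m * N') : ℕ) : ℤ) ∣ l - ((r * N' : ℕ) : ℤ) * B
        · have h3 : ∀ ζ ∈ RU m, (if ((μ * (m * N') : ℕ) : ℤ) ∣ l - ((r * N' : ℕ) : ℤ) * B then
              ((ζ ^ (B : ℤ) : kkˣ) : kk) *
                algebraMap (ZMod 2) kk (JG jc B ((l - ((r * N' : ℕ) : ℤ) * B) / ((μ * (m * N') : ℕ) : ℤ))) else 0) =
              ((ζ ^ (B : ℤ) : kkˣ) : kk) *
                algebraMap (ZMod 2) kk (JG jc B ((l - ((r * N' : ℕ) : ℤ) * B) / ((μ * (m * N') : ℕ) : ℤ))) :=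
            fun ζ _ => if_pos hd
          rw [Finset.sum_congr rfl h3, CCF_zsum hURU m hm]
          congr 1
          by_cases hd2 : (m : ℤ) ∣ (B : ℤ)
          · rw [if_pos hd2, if_pos ⟨hd, hd2⟩]
          · rw [if_neg hd2, if_neg (fun h => hd2 h.2)]
        · rw [if_neg (fun h => hd h.1), map_zero]
          refine Finset.sum_eq_zero ?_
          intro ζ _
          exact if_neg hd
    rw [h1]
    by_cases hl0 : l = 0
    · subst hl0
      rw [if_pos rfl, if_pos rfl, if_neg (not_lt.mpr hgt.le)]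
      simp
    · rw [if_neg hl0, if_neg hl0, zero_add]
      by_cases hl : 0 < l ∧ ((m * N' : ℕ) : ℤ) ∣ l
      · rw [if_pos hl]
        obtain ⟨hl1, ⟨l2, rfl⟩⟩ := hl
        have hl2 : 0 < l2 := (mul_pos_iff_of_pos_left hmN').mp hl1
        obtain ⟨l', rfl⟩ := Int.eq_ofNat_of_zero_le hl2.le
        have hl' : 0 < l' := by exact_mod_cast hl2
        have h3 := CCF_B hJGN m N' μ r l' hm0 hN' hμ hr hl' hgt
        rw [Int.mul_ediv_cancel_left _ hmN'.ne', Int.toNat_natCast, ← h3]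
        have h4 : ((m * N' : ℕ) : ℤ) * (l' : ℤ) = ((m * N' * l' : ℕ) : ℤ) := by push_cast; ring
        rw [h4, Int.toNat_natCast]
      · rw [if_neg hl]
        have h5 : (0 : kk) = algebraMap (ZMod 2) kk 0 := (map_zero _).symm
        rw [h5]
        congr 1
        refine Finset.sum_eq_zero ?_
        intro B hB
        rw [mem_Icc] at hB
        have hlp : 0 < l := by
          by_contra h
          have : l.toNat = 0 := Int.toNat_eq_zero.mpr (not_lt.mp h)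
          omega
        rw [if_neg]
        rintro ⟨⟨X, hX⟩, ⟨Y, hY⟩⟩
        apply hl
        refine ⟨hlp, ⟨r * Y + μ * X, ?_⟩⟩
        have h6 : l = ((r * N' : ℕ) : ℤ) * B + ((μ * (m * N') : ℕ) : ℤ) * X := by linarith
        rw [h6, hY]; push_cast; ring

theorem CCF (hURU : URU_stmt) (hKXP : KXP_stmt) (hJGN : JGN_stmt) : CCF_stmt := by
  intro n N μ lam hn hN hnN hμe hμ hlam
  have hn0 : n ≠ 0 := hn.pos.ne'
  have hN0 : 0 < N := hN.pos
  refine ⟨∑ m ∈ n.divisors, (if lam * (n / m) < μ * m then 0 else 1), ?_⟩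
  intro l
  have h1 : (HC n (lam * N) (fun e ζ => kap (sig e ζ DDk) (sig (μ * N) 1 DDk))).coeff l =
      ∑ m ∈ n.divisors, ∑ ζ ∈ RU m,
        (kap (sig (lam * N * (n / m) / m) ζ DDk) (sig (μ * N) 1 DDk)).coeff l := by
    unfold HC
    rw [HahnSeries.coeff_sum]
    refine Finset.sum_congr rfl ?_
    intro m _
    rw [HahnSeries.coeff_sum]
  have h2 : ∀ m ∈ n.divisors, ∑ ζ ∈ RU m,
        (kap (sig (lam * N * (n / m) / m) ζ DDk) (sig (μ * N) 1 DDk)).coeff l =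
      if l = 0 then (if lam * (n / m) < μ * m then 0 else 1) else
        if 0 < l ∧ (N : ℤ) ∣ l then
          algebraMap (ZMod 2) kk (CCF_cp m (lam * (n / m)) μ (l / N).toNat) else 0 := by
    intro m hm
    have hmn : m ∣ n := Nat.dvd_of_mem_divisors hm
    obtain ⟨N', hN'⟩ := hmn.trans hnN
    have hm0 : 0 < m := Nat.pos_of_mem_divisors hm
    have hN'0 : 0 < N' := by
      rcases Nat.eq_zero_or_pos N' with h | h
      · rw [h, mul_zero] at hN'; omega
      · exact h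
    have hmo : Odd m := Odd.of_dvd_nat hn hmn
    have heo : Odd (n / m) := Odd.of_dvd_nat hn (Nat.div_dvd_of_dvd hmn)
    have hr : Odd (lam * (n / m)) := hlam.mul heo
    have hne : lam * (n / m) ≠ μ * m := by
      intro h
      have h3 : Even (μ * m) := hμe.mul_right m
      rw [← h] at h3
      exact (Nat.not_even_iff_odd.mpr hr) h3
    have h4 := CCF_one hURU hKXP hJGN m N' μ (lam * (n / m)) hmo hN'0 hμ hr.pos hne l
    have h5 : lam * N * (n / m) / m = lam * (n / m) * N' := by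
      rw [hN', show lam * (m * N') * (n / m) = m * (lam * (n / m) * N') by ring]
      exact Nat.mul_div_cancel_left _ hm0
    rw [h5, hN']
    exact h4
  rw [h1, Finset.sum_congr rfl h2]
  by_cases hl0 : l = 0
  · simp only [if_pos hl0]
  · by_cases hl : 0 < l ∧ (N : ℤ) ∣ l
    · rw [if_neg hl0, if_pos hl]
      have h6 : ∀ m ∈ n.divisors, (if l = 0 then (if lam * (n / m) < μ * m then (0 : kk) else 1) else
        if 0 < l ∧ (N : ℤ) ∣ l then
          algebraMap (ZMod 2) kk (CCF_cp m (lam * (n / m)) μ (l / N).toNat) else 0) =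
          algebraMap (ZMod 2) kk (CCF_cp m (lam * (n / m)) μ (l / N).toNat) := by
        intro m _
        rw [if_neg hl0, if_pos hl]
      rw [Finset.sum_congr rfl h6, ← map_sum]
      congr 1
      unfold CP
      rw [← Nat.sum_div_divisors n]
      refine Finset.sum_congr rfl ?_
      intro m hm
      have hmn : m ∣ n := Nat.dvd_of_mem_divisors hm
      have h7 : n / (n / m) = m := Nat.div_div_self hmn hn0
      rw [h7]
      rfl
    · rw [if_neg hl0, if_neg hl]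
      refine Finset.sum_eq_zero ?_
      intro m _
      rw [if_neg hl0, if_neg hl]

end Pool.Agent.QP
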