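import Pool.Agent.helper19.QP.SpecV
import Pool.Agent.helper72.LQ.EXP
import Pool.Agent.helper31.IG.F1
import Pool.Agent.helper7.IG.Basic

set_option autoImplicit false

open Finset

noncomputable section

namespace Pool.Agent.QP

open Pool.Agent.helper7.IG (kk LL sig DDk MM im2 ps Vx Nb Frame)
open Pool.Agent.LQ (FF DD)

theorem EST_im2_DD : im2 DD = DDk := by
  have h := Pool.Agent.helper7.IG.F1_a
  rw [← h, Pool.Agent.LQ.DD_def]

theorem EST_im2_T1 (n : ℕ) (hn0 : n ≠ 0) :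
    ∃ c : kk, im2 (Pool.Agent.LQ.T n 1) = algebraMap kk LL c := by
  refine ⟨algebraMap (ZMod 2) kk (PowerSeries.coeff 0 (Pool.Agent.LQ.T n 1)), ?_⟩
  have h0 : algebraMap kk LL = (HahnSeries.C : kk →+* LL) := rfl
  ext l
  rw [h0, HahnSeries.C_apply, HahnSeries.coeff_single]
  rcases lt_trichotomy l 0 with hl | hl | hl
  · rw [Pool.Agent.helper7.IG.im2_coeff_neg _ _ hl, if_neg hl.ne]
  · subst hl
    have h := Pool.Agent.helper7.IG.im2_coeff_nat (Pool.Agent.LQ.T n 1) 0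
    rw [if_pos rfl]
    exact h
  · obtain ⟨m, rfl⟩ := Int.eq_ofNat_of_zero_le hl.le
    rw [if_neg hl.ne']
    have h := Pool.Agent.helper7.IG.im2_coeff_nat (Pool.Agent.LQ.T n 1) m
    have hm : 0 < m := by exact_mod_cast hl
    rw [Pool.Agent.LQ.coeff_T] at h
    have hz : ∑ d ∈ (Nat.gcd m n).divisors, PowerSeries.coeff (m * n / d ^ 2) (1 : FF) = 0 := by
      refine Finset.sum_eq_zero ?_
      intro d hd
      have hdg : d ∣ Nat.gcd m n := Nat.dvd_of_mem_divisors hd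
      have hg : Nat.gcd m n ≠ 0 := (Nat.mem_divisors.mp hd).2
      obtain ⟨m', hm'⟩ := hdg.trans (Nat.gcd_dvd_left m n)
      obtain ⟨n', hn'⟩ := hdg.trans (Nat.gcd_dvd_right m n)
      have hd0 : 0 < d := Nat.pos_of_mem_divisors hd
      have hm'0 : 0 < m' := by
        rcases Nat.eq_zero_or_pos m' with h1 | h1
        · rw [h1, mul_zero] at hm'; omega
        · exact h1
      have hn'0 : 0 < n' := by
        rcases Nat.eq_zero_or_pos n' with h1 | h1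
        · rw [h1, mul_zero] at hn'; omega
        · exact h1
      have he : m * n / d ^ 2 = m' * n' := by
        rw [hm', hn', show d * m' * (d * n') = d ^ 2 * (m' * n') by ring]
        exact Nat.mul_div_cancel_left _ (pow_pos hd0 2)
      rw [he, PowerSeries.coeff_one, if_neg]
      exact (Nat.mul_pos hm'0 hn'0).ne'
    rw [hz, map_zero] at h
    exact h

theorem EST_nat (A Tt k₀ i' : ℕ) (hA : 1 ≤ A) (hk : 1 ≤ k₀) (hi : k₀ ≤ i')
    (h : (Tt = 1 ∧ k₀ + 2 ≤ i') ∨ 2 ≤ Tt) :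
    4 * (i' + 1 - k₀) * Tt + (8 * (A * k₀) - 1) ≤ 8 * A * (Tt * i') := by
  obtain ⟨δ, rfl⟩ := Nat.exists_eq_add_of_le hi
  have h1 : k₀ + δ + 1 - k₀ = δ + 1 := by omega
  rw [h1]
  rcases h with ⟨rfl, h2⟩ | h2
  · have h3 : 2 ≤ δ := by omega
    have h4 : δ ≤ A * δ := Nat.le_mul_of_pos_left δ hA
    have h5 : 8 * A * (1 * (k₀ + δ)) = 8 * (A * k₀) + 8 * (A * δ) := by ring
    rw [h5]
    omega
  · obtain ⟨S, rfl⟩ := Nat.exists_eq_add_of_le h2
    have h3 : (2 + S) ≤ A * k₀ * (2 + S) := Nat.le_mul_of_pos_left _ (Nat.mul_pos hA hk)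
    have h4 : δ * (2 + S) ≤ A * (δ * (2 + S)) := Nat.le_mul_of_pos_left _ hA
    have h5 : 8 * A * ((2 + S) * (k₀ + δ)) =
      8 * (A * k₀) + 4 * (A * k₀ * (2 + S)) + 4 * (A * k₀ * S) + 8 * (A * (δ * (2 + S))) := by ring
    have h6 : 4 * (δ + 1) * (2 + S) = 4 * (δ * (2 + S)) + 4 * (2 + S) := by ring
    rw [h5, h6]
    omega

theorem EST_sumle {Γ : Type*} [LinearOrderedCommGroupWithZero Γ] {R ι : Type*} [Ring R]
    (v : Valuation R Γ) (s : Finset ι) (f : ι → R) (G : Γ) (hG : G ≠ 0)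
    (h : ∀ i ∈ s, v (f i) * G ≤ 1) : v (∑ i ∈ s, f i) * G ≤ 1 := by
  have h1 : v (∑ i ∈ s, f i) ≤ 1 * G⁻¹ := by
    refine v.map_sum_le ?_
    intro i hi
    exact (le_mul_inv_iff₀ (zero_lt_iff.mpr hG)).mpr (h i hi)
  exact (le_mul_inv_iff₀ (zero_lt_iff.mpr hG)).mp h1

theorem EST_HC_add (n N : ℕ) (h1 h2 : ℕ → kkˣ → LL) :
    HC n N (fun e ζ => h1 e ζ + h2 e ζ) = HC n N h1 + HC n N h2 := by
  unfold HC
  rw [← Finset.sum_add_distrib]
  refine Finset.sum_congr rfl ?_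
  intro m _
  rw [← Finset.sum_add_distrib]

theorem EST_HC_sum {ι : Type*} (s : Finset ι) (n N : ℕ) (h : ι → ℕ → kkˣ → LL) :
    HC n N (fun e ζ => ∑ i ∈ s, h i e ζ) = ∑ i ∈ s, HC n N (h i) := by
  classical
  induction s using Finset.induction_on with
  | empty => simp [HC]
  | insert i s hi ih =>
    rw [Finset.sum_insert hi, ← ih, ← EST_HC_add]
    unfold HC
    refine Finset.sum_congr rfl ?_
    intro m _
    refine Finset.sum_congr rfl ?_
    intro ζ _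
    exact Finset.sum_insert hi

theorem EST_HC_mul (n N : ℕ) (h : ℕ → kkˣ → LL) (c : LL) :
    HC n N (fun e ζ => h e ζ * c) = HC n N h * c := by
  unfold HC
  rw [Finset.sum_mul]
  refine Finset.sum_congr rfl ?_
  intro m _
  rw [Finset.sum_mul]

theorem EST_RU (m : ℕ) (ζ : kkˣ) (h : ζ ∈ RU m) : ζ ^ m = 1 := by
  unfold RU at h
  split_ifs at h with h1
  · simpa using h
  · simp at h

theorem EST_HC_le {Γ : Type*} [LinearOrderedCommGroupWithZero Γ] (v : Valuation LL Γ) (n N : ℕ)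
    (h : ℕ → kkˣ → LL) (G : Γ) (hG : G ≠ 0)
    (H : ∀ m, m ∣ n → ∀ ζ : kkˣ, ζ ^ m = 1 → v (h (N * (n / m) / m) ζ) * G ≤ 1) :
    v (HC n N h) * G ≤ 1 := by
  unfold HC
  refine EST_sumle v _ _ G hG ?_
  intro m hm
  refine EST_sumle v _ _ G hG ?_
  intro ζ hζ
  exact H m (Nat.dvd_of_mem_divisors hm) ζ (EST_RU m ζ hζ)

theorem EST_kernel (hGEO : GEO_stmt) (V : ValuationSubring LL) (x b : LL) (g : V.ValueGroup)
    (A k₀ : ℕ) (hA : 1 ≤ A) (hg : 1 < g) (hx : V.valuation x ≤ g ^ 4)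
    (hb : V.valuation b = g ^ (8 * A)) :
    V.valuation (kap x b + ∑ i ∈ range (2 * (A * k₀)), (x / b) ^ i) * g ^ (8 * (A * k₀) - 1) ≤ 1 := by
  have hg0 : g ≠ 0 := (zero_lt_one.trans hg).ne'
  have hgp : ∀ k : ℕ, 0 < g ^ k := fun k => pow_pos (zero_lt_one.trans hg) k
  have hb0 : b ≠ 0 := by
    intro h
    rw [h, map_zero] at hb
    exact (hgp _).ne hb
  have h1 : V.valuation (x / b) * g ^ 4 ≤ 1 := by
    rw [map_div₀, hb, div_mul_eq_mul_div, div_le_one₀ (hgp _)]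
    calc V.valuation x * g ^ 4 ≤ g ^ 4 * g ^ 4 := mul_le_mul_left hx _
      _ = g ^ 8 := by rw [← pow_add]
      _ ≤ g ^ (8 * A) := pow_le_pow_right₀ hg.le (by omega)
  have h2 : V.valuation (x / b) < 1 := by
    have h3 : V.valuation (x / b) ≤ 1 * (g ^ 4)⁻¹ := (le_mul_inv_iff₀ (hgp 4)).mpr h1
    refine h3.trans_lt ?_
    rw [one_mul]
    exact inv_lt_one_of_one_lt₀ (one_lt_pow₀ hg (by norm_num))
  have h3 := hGEO V x b (2 * (A * k₀)) hb0 h2
  calc V.valuation (kap x b + ∑ i ∈ range (2 * (A * k₀)), (x / b) ^ i) * g ^ (8 * (A * k₀) - 1)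
      ≤ V.valuation (x / b) ^ (2 * (A * k₀)) * g ^ (4 * (2 * (A * k₀))) :=
        mul_le_mul' h3 (pow_le_pow_right₀ hg.le (by omega))
    _ = (V.valuation (x / b) * g ^ 4) ^ (2 * (A * k₀)) := by rw [mul_pow, ← pow_mul]
    _ ≤ 1 := pow_le_one₀ zero_le h1

theorem EST_term (hHKS : HKS_stmt) (E : ℕ) (NN : Finset ℕ) (b : LL) (i : ℕ) (hE : E ≠ 0)
    (hodd : ∀ n ∈ NN, Odd n) (hdvd : ∀ n ∈ NN, n ∣ E) :
    ∑ n ∈ NN, HC n E (fun e ζ => (sig e ζ DDk / b) ^ i) =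
      sig E 1 (im2 (∑ n ∈ NN, Pool.Agent.LQ.T n (DD ^ i))) * (b⁻¹) ^ i := by
  rw [map_sum, map_sum, Finset.sum_mul]
  refine Finset.sum_congr rfl ?_
  intro n hn
  rw [← hHKS n E (DD ^ i) (hodd n hn) hE (hdvd n hn), ← EST_HC_mul]
  unfold HC
  refine Finset.sum_congr rfl ?_
  intro m _
  refine Finset.sum_congr rfl ?_
  intro ζ _
  have h1 : (sig (E * (n / m) / m) ζ DDk / b) ^ i =
      sig (E * (n / m) / m) ζ (im2 (DD ^ i)) * (b⁻¹) ^ i := by
    rw [map_pow, map_pow, EST_im2_DD, div_eq_mul_inv, mul_pow]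
  exact h1

theorem EST_T_pow (n t : ℕ) (f : FF) (hn : Odd n) :
    Pool.Agent.LQ.T n (f ^ 2 ^ t) = (Pool.Agent.LQ.T n f) ^ 2 ^ t := by
  induction t with
  | zero => simp
  | succ t ih =>
    rw [pow_succ, pow_mul, Pool.Agent.LQ.EXP.2.2.2.2.1 n (f ^ 2 ^ t) hn, ih, ← pow_mul]

theorem EST_T_sum (NN : Finset ℕ) (t i : ℕ) (hodd : ∀ n ∈ NN, Odd n) :
    ∑ n ∈ NN, Pool.Agent.LQ.T n (DD ^ (2 ^ t * i)) = (∑ n ∈ NN, Pool.Agent.LQ.T n (DD ^ i)) ^ 2 ^ t := by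
  have hch : CharP (PowerSeries (ZMod 2)) 2 :=
    charP_of_injective_algebraMap (PowerSeries.C_injective (R := ZMod 2)) 2
  have hs : ∀ f : ℕ → FF, (∑ n ∈ NN, f n) ^ 2 ^ t = ∑ n ∈ NN, f n ^ 2 ^ t := by
    intro f
    exact sum_pow_char_pow (R := PowerSeries (ZMod 2)) 2 t NN f
  rw [hs]
  refine Finset.sum_congr rfl ?_
  intro n hn
  rw [mul_comm (2 ^ t) i, pow_mul, EST_T_pow n t _ (hodd n hn)]

theorem EST_poly (V : ValuationSubring LL) (E i' k₀ : ℕ) (g : V.ValueGroup) (hg : 1 < g)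
    (hD : V.valuation (sig E 1 DDk) = g ^ 4) (P : Polynomial (ZMod 2))
    (hP : ∀ l : ℕ, P.coeff l ≠ 0 → Odd l ∧ l + k₀ ≤ i' + 1) :
    V.valuation (sig E 1 (im2 (Polynomial.aeval DD P))) ≤ g ^ (4 * (i' + 1 - k₀)) := by
  have hgp : ∀ k : ℕ, 0 < g ^ k := fun k => pow_pos (zero_lt_one.trans hg) k
  rw [Polynomial.aeval_eq_sum_range, map_sum, map_sum]
  refine V.valuation.map_sum_le ?_
  intro l _
  by_cases hl : P.coeff l = 0
  · rw [hl, zero_smul, map_zero, map_zero, map_zero]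
    exact zero_le
  · have h1 : P.coeff l = 1 := by
      have h2 : ∀ x : ZMod 2, x ≠ 0 → x = 1 := by decide
      exact h2 _ hl
    rw [h1, one_smul, map_pow, map_pow, EST_im2_DD, map_pow, hD, ← pow_mul]
    refine pow_le_pow_right₀ hg.le ?_
    have h3 := (hP l hl).2
    omega

theorem EST_one (P : Polynomial (ZMod 2)) (k₀ : ℕ)
    (hP : ∀ l : ℕ, P.coeff l ≠ 0 → Odd l ∧ l + k₀ ≤ k₀ + 1) (h1 : P.coeff 1 = 1) :
    P = Polynomial.X := by
  ext l
  rw [Polynomial.coeff_X]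
  split_ifs with h
  · rw [← h, h1]
  · by_contra h2
    obtain ⟨h3, h4⟩ := hP l h2
    have h5 : 0 < l := h3.pos
    omega

theorem EST (hHCB : HCB_stmt) (hHKS : HKS_stmt) (hSDI : SDI_stmt) (hGEO : GEO_stmt) : EST_stmt := by
  intro V E a k₀ W g NN K hVk hE hg hD hW hRel hk hmin hNN
  have hoddN : ∀ n ∈ NN, Odd n := hRel.1
  have hk₀ : Odd k₀ := hRel.2.1 k₀ hk
  have hk1 : 1 ≤ k₀ := hk₀.pos
  have hE0 : E ≠ 0 := hE.pos.ne'
  have hgp : ∀ k : ℕ, 0 < g ^ k := fun k => pow_pos (zero_lt_one.trans hg) k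
  have hA : 1 ≤ 2 ^ a := Nat.one_le_two_pow
  have hch : CharP kk 2 := inferInstance
  have hadd : ∀ F : LL, F + F = 0 := by
    intro F
    exact CharTwo.add_self_eq_zero F
  generalize hG : g ^ (8 * (2 ^ a * k₀) - 1) = G
  have hG0 : G ≠ 0 := by rw [← hG]; exact (hgp _).ne'
  set b : LL := W ^ 2 ^ (a + 1) with hbdef
  have hb : V.valuation b = g ^ (8 * 2 ^ a) := by
    rw [hbdef, map_pow, hW, ← pow_mul]
    congr 1
    ring
  have hb0 : b ≠ 0 := by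
    intro h
    rw [h, map_zero] at hb
    exact (hgp _).ne hb
  -- the error
  have hHC0 : ∀ n ∈ NN, V.valuation (HC n E (fun e ζ => kap (sig e ζ DDk) b +
      ∑ i ∈ range (2 * (2 ^ a * k₀)), (sig e ζ DDk / b) ^ i)) * G ≤ 1 := by
    intro n hn
    refine EST_HC_le V.valuation n E _ G hG0 ?_
    intro m hm ζ hζ
    have h1 := hHCB V hVk E n m ζ hE0 (hoddN n hn) (hNN n hn) hm hζ
    rw [hD, max_eq_left (one_le_pow₀ hg.le)] at h1
    rw [← hG]
    exact EST_kernel hGEO V _ b g (2 ^ a) k₀ hA hg h1 hb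
  have herr : V.valuation (∑ n ∈ NN, HC n E (fun e ζ => kap (sig e ζ DDk) b) +
      ∑ i ∈ range (2 * (2 ^ a * k₀)), sig E 1 (im2 (∑ n ∈ NN, Pool.Agent.LQ.T n (DD ^ i))) *
        (b⁻¹) ^ i) * G ≤ 1 := by
    have h1 := EST_sumle V.valuation NN _ G hG0 hHC0
    have h2 : ∑ n ∈ NN, HC n E (fun e ζ => kap (sig e ζ DDk) b +
        ∑ i ∈ range (2 * (2 ^ a * k₀)), (sig e ζ DDk / b) ^ i) =
        ∑ n ∈ NN, HC n E (fun e ζ => kap (sig e ζ DDk) b) +
      ∑ i ∈ range (2 * (2 ^ a * k₀)), sig E 1 (im2 (∑ n ∈ NN, Pool.Agent.LQ.T n (DD ^ i))) *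
        (b⁻¹) ^ i := by
      have h3 : ∀ i ∈ range (2 * (2 ^ a * k₀)),
          sig E 1 (im2 (∑ n ∈ NN, Pool.Agent.LQ.T n (DD ^ i))) * (b⁻¹) ^ i =
          ∑ n ∈ NN, HC n E (fun e ζ => (sig e ζ DDk / b) ^ i) := by
        intro i _
        exact (EST_term hHKS E NN b i hE0 hoddN hNN).symm
      rw [Finset.sum_congr rfl h3, Finset.sum_comm, ← Finset.sum_add_distrib]
      refine Finset.sum_congr rfl ?_
      intro n _
      rw [EST_HC_add, EST_HC_sum]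
    rw [← h2]
    exact h1
  -- the constant term
  have hc0 : ∃ c : kk, im2 (∑ n ∈ NN, Pool.Agent.LQ.T n (DD ^ 0)) = algebraMap kk LL c := by
    have h1 : ∀ n ∈ NN, ∃ c : kk, im2 (Pool.Agent.LQ.T n (DD ^ 0)) = algebraMap kk LL c := by
      intro n hn
      rw [pow_zero]
      exact EST_im2_T1 n (hoddN n hn).pos.ne'
    classical
    choose! cf hcf using h1
    refine ⟨∑ n ∈ NN, cf n, ?_⟩
    rw [map_sum, map_sum]
    exact Finset.sum_congr rfl hcf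
  obtain ⟨c, hc⟩ := hc0
  refine ⟨c, ?_⟩
  -- the other terms
  have hterm : ∀ i : ℕ, 1 ≤ i → i ≠ k₀ →
      V.valuation (sig E 1 (im2 (∑ n ∈ NN, Pool.Agent.LQ.T n (DD ^ i))) * (b⁻¹) ^ i) * G ≤ 1 := by
    intro i hi hik
    obtain ⟨t, i', hi'odd, rfl⟩ := Nat.exists_eq_two_pow_mul_odd (by omega : i ≠ 0)
    obtain ⟨P, hP1, hP2, hP3⟩ := hSDI NN K k₀ hRel hmin i' hi'odd
    rw [EST_T_sum NN t i' hoddN, hP3, map_pow, map_pow, map_mul, map_pow, map_pow, map_inv₀, hb]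
    by_cases hP0 : P = 0
    · rw [hP0, map_zero, map_zero, map_zero, map_zero, zero_pow (pow_ne_zero _ two_ne_zero), zero_mul,
        zero_mul]
      exact zero_le
    · obtain ⟨l, hl⟩ : ∃ l, P.coeff l ≠ 0 := by
        by_contra h
        push Not at h
        exact hP0 (Polynomial.ext (by intro l; rw [h l, Polynomial.coeff_zero]))
      have hl1 := hP1 l hl
      have hl2 : 0 < l := hl1.1.pos
      have hki : k₀ ≤ i' := by omega
      have hv := EST_poly V E i' k₀ g hg hD P hP1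
      have hnat := EST_nat (2 ^ a) (2 ^ t) k₀ i' hA hk1 hki (by
        rcases Nat.eq_zero_or_pos t with ht | ht
        · left
          subst ht
          rw [pow_zero, one_mul] at hik
          refine ⟨pow_zero 2, ?_⟩
          obtain ⟨u, hu⟩ := hk₀
          obtain ⟨w, hw⟩ := hi'odd
          omega
        · right
          calc 2 = 2 ^ 1 := (pow_one 2).symm
            _ ≤ 2 ^ t := Nat.pow_le_pow_right (by norm_num) ht)
      rw [← hG]
      calc V.valuation (sig E 1 (im2 (Polynomial.aeval DD P))) ^ 2 ^ t *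
            ((g ^ (8 * 2 ^ a))⁻¹) ^ (2 ^ t * i') * g ^ (8 * (2 ^ a * k₀) - 1)
          ≤ (g ^ (4 * (i' + 1 - k₀))) ^ 2 ^ t * ((g ^ (8 * 2 ^ a))⁻¹) ^ (2 ^ t * i') *
              g ^ (8 * (2 ^ a * k₀) - 1) := by
            exact mul_le_mul_left (mul_le_mul_left (pow_le_pow_left' hv _) _) _
        _ = g ^ (4 * (i' + 1 - k₀) * 2 ^ t + (8 * (2 ^ a * k₀) - 1)) *
              (g ^ (8 * 2 ^ a * (2 ^ t * i')))⁻¹ := by
            rw [inv_pow, ← pow_mul, ← pow_mul, pow_add]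
            ac_rfl
        _ ≤ 1 := by
            rw [← div_eq_mul_inv, div_le_one₀ (hgp _)]
            exact pow_le_pow_right₀ hg.le hnat
  -- the main term
  have hmain : sig E 1 (im2 (∑ n ∈ NN, Pool.Agent.LQ.T n (DD ^ k₀))) * (b⁻¹) ^ k₀ =
      sig E 1 DDk / W ^ (2 ^ (a + 1) * k₀) := by
    obtain ⟨P, hP1, hP2, hP3⟩ := hSDI NN K k₀ hRel hmin k₀ hk₀
    rw [if_pos hk] at hP2
    rw [hP3, EST_one P k₀ hP1 hP2, Polynomial.aeval_X, EST_im2_DD, hbdef, inv_pow, ← pow_mul,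
      div_eq_mul_inv]
  -- the splitting
  have hlt : k₀ < 2 * (2 ^ a * k₀) := by
    have h1 : k₀ ≤ 2 ^ a * k₀ := Nat.le_mul_of_pos_left k₀ hA
    omega
  set f : ℕ → LL := fun i => sig E 1 (im2 (∑ n ∈ NN, Pool.Agent.LQ.T n (DD ^ i))) * (b⁻¹) ^ i
    with hf
  have hsplit : ∑ i ∈ range (2 * (2 ^ a * k₀)), f i =
      algebraMap kk LL c + sig E 1 DDk / W ^ (2 ^ (a + 1) * k₀) +
      ∑ i ∈ ((range (2 * (2 ^ a * k₀))).erase 0).erase k₀, f i := by
    have h0 : 0 ∈ range (2 * (2 ^ a * k₀)) := mem_range.mpr (by omega)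
    have h1 : k₀ ∈ (range (2 * (2 ^ a * k₀))).erase 0 :=
      mem_erase.mpr ⟨by omega, mem_range.mpr hlt⟩
    rw [← Finset.add_sum_erase _ _ h0, ← Finset.add_sum_erase _ _ h1, ← add_assoc]
    congr 1
    congr 1
    show sig E 1 (im2 (∑ n ∈ NN, Pool.Agent.LQ.T n (DD ^ 0))) * (b⁻¹) ^ 0 = algebraMap kk LL c
    rw [hc, pow_zero, mul_one]
    exact (sig E 1).commutes c
  have hrest : V.valuation (∑ i ∈ ((range (2 * (2 ^ a * k₀))).erase 0).erase k₀, f i) * G ≤ 1 := by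
    refine EST_sumle V.valuation _ _ G hG0 ?_
    intro i hi
    rw [mem_erase, mem_erase] at hi
    exact hterm i (by omega) hi.1
  have hfin : ∑ n ∈ NN, HC n E (fun e ζ => kap (sig e ζ DDk) b) + algebraMap kk LL c +
      sig E 1 DDk / W ^ (2 ^ (a + 1) * k₀) =
      (∑ n ∈ NN, HC n E (fun e ζ => kap (sig e ζ DDk) b) + ∑ i ∈ range (2 * (2 ^ a * k₀)), f i) +
      ∑ i ∈ ((range (2 * (2 ^ a * k₀))).erase 0).erase k₀, f i := by
    rw [hsplit]
    generalize ∑ i ∈ ((range (2 * (2 ^ a * k₀))).erase 0).erase k₀, f i = R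
    linear_combination (-1 : LL) * hadd R
  rw [hfin]
  refine le_trans (mul_le_mul_left (V.valuation.map_add _ _) G) ?_
  rcases le_total (V.valuation (∑ n ∈ NN, HC n E (fun e ζ => kap (sig e ζ DDk) b) +
    ∑ i ∈ range (2 * (2 ^ a * k₀)), f i))
    (V.valuation (∑ i ∈ ((range (2 * (2 ^ a * k₀))).erase 0).erase k₀, f i)) with h | h
  · rw [max_eq_right h]; exact hrest
  · rw [max_eq_left h]; exact herr

end Pool.Agent.QP
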