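import Pool.Agent.helper19.QP.SpecV
import Pool.Agent.helper19.QP.SpecS
import Pool.Agent.helper19.QP.EST
import Pool.Agent.helper19.QP.CCF
import Pool.Agent.helper10.QP.URU
import Pool.Agent.helper28.QP.HCB
import Pool.Agent.helper28.QP.SGZ
import Pool.Agent.helper28.QP.TJT
import Pool.Agent.helper30.QP.TJN
import Pool.Agent.helper30.QP.UHD
import Pool.Agent.helper34.QP.PNB
import Pool.Agent.helper56.QP.HCM
import Pool.Agent.helper56.QP.SGA
import Pool.Agent.helper57.QP.LAM
import Pool.Agent.helper7.QP.FCO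
import Pool.Agent.helper7.QP.KXP
import Pool.Agent.helper72.QP.PVB
import Pool.Agent.helper72.QP.TJL
import Pool.Agent.helper83.QP.UHM
import Pool.Agent.helper61.QP.JJ0
import Pool.Agent.helper68.QP.PLC
import Pool.Agent.helper68.QP.GEO
import Pool.Agent.helper68.QP.LDT
import Pool.Agent.helper78.QP.PSN
import Pool.Agent.helper99.QP.FBN
import Pool.Agent.helper99.QP.RLX
import Pool.Agent.helper99.QP.JGN
import Pool.Agent.helper99.QP.DRL
import Pool.Agent.helper99.QP.SGB
import Pool.Agent.helper99.QP.SEL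
import Pool.Agent.helper61.QP.KER
import Pool.Agent.helper26.QP.HKS
import Pool.Agent.helper26.QP.SDI

/-!
# Project qp: blocks V and S without hypotheses
-/

set_option autoImplicit false

noncomputable section

namespace Pool.Agent.QP

theorem all_UHD : UHD_stmt := UHD UHM
theorem all_PVB : PVB_stmt := PVB all_UHD
theorem all_HCB : HCB_stmt := HCB PNB
theorem all_HKS : HKS_stmt := HKS URU
theorem all_EST : EST_stmt := EST all_HCB all_HKS SDI GEO
theorem all_PSN : PSN_stmt := PSN PLC all_PVB all_EST LDT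
theorem all_JGN : JGN_stmt := JGN JJ0
theorem all_TJN : TJN_stmt := TJN (TJL JJ0) (TJT JJ0)
theorem all_KER : KER_stmt := KER JJ0 all_JGN all_TJN
theorem all_DRL : DRL_stmt := DRL all_KER
theorem all_KXP : KXP_stmt := KXP JJ0 all_JGN all_KER
theorem all_FCO : FCO_stmt := FCO JJ0 all_JGN all_DRL SGA SGB
theorem all_SEL : SEL_stmt :=
  SEL all_FCO (SGZ all_JGN) (LAM HCM all_JGN) (CCF URU all_KXP all_JGN) FBN

end Pool.Agent.QP
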