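import Pool.Agent.helper7.IG.Stmt2
import Pool.Agent.helper57.LQ.SpecC

/-!
# Project qp (MP_ebc808_nt), Theorem Q+: common definitions

`kk` is the algebraic closure of the field with two elements, `LL` the field of Laurent series over `kk` in the variable `q`,
`sig e ζ F = F(ζ q^e)`, `DDk = D(q)` the sum of `q^(v^2)` over the odd `v > 0` (`Delta` modulo 2), `MM` the field of the Laurent series algebraic over
`kk(DDk)` (all from project IG of helper7: Pool/Agent/helper7/IG). `FF` = power series over the field with two elements, `DD` the series `D` in `FF`,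
`T n` the formal Hecke operator on `FF` (from project LQ of helper57), `im2 : FF → LL`, `im2 DD = DDk` (module F1 of IG).
-/

set_option autoImplicit false

open Finset

noncomputable section

namespace Pool.Agent.QP

open Pool.Agent.helper7.IG (kk LL sig DDk MM im2 ps Vx Nb Frame)
open Pool.Agent.LQ (FF DD)

/-- The Lambert series of the `q^m/(1+q^m)`, `m` prime to 6: the coefficient at `n` is the number of divisors of `n` prime to 6. -/
def UU : LL := ps fun n => ((#{m ∈ n.divisors | m.Coprime 6} : ℕ) : kk)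

open Classical in
/-- The `m`-th roots of unity. -/
def RU (m : ℕ) : Finset kkˣ := if h : {ζ : kkˣ | ζ ^ m = 1}.Finite then h.toFinset else ∅

/-- Sum over the conjugates of degree `n` (`n = e m`, `ζ^m = 1`: the substitutions `q ↦ ζ q^(N e/m)`) of `q ↦ q^N`; `n ∣ N`. -/
def HC (n N : ℕ) (h : ℕ → kkˣ → LL) : LL :=
  ∑ m ∈ n.divisors, ∑ ζ ∈ RU m, h (N * (n / m) / m) ζ

/-- The kernel `D(y)/(D(x) + D(y))`; `a = D(x)`, `b = D(y)`. -/
def kap (a b : LL) : LL := b / (a + b)

/-- The functional `∑_{n ∈ NN} coeff n` on the span of the `DD ^ i`, `i` odd, is `∑_{k ∈ K} (coefficient of DD ^ k)`.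
(Equivalently `∑_{n ∈ NN} T_n (1/D) = ∑_{k ∈ K} D^(-k)`.) -/
def Rel (NN K : Finset ℕ) : Prop :=
  (∀ n ∈ NN, Odd n) ∧ (∀ k ∈ K, Odd k) ∧
  ∀ i : ℕ, Odd i → ∑ n ∈ NN, PowerSeries.coeff n (DD ^ i) = if i ∈ K then 1 else 0

/-- The modular function `psi(q^N)` as a sum of kernels. For `a < A` the set `NN a` consists of the odd `n` of the part
`∑_{n ∈ NN a} (T_n j)(q^(2^a))`, `j = 1/D`. `D(q^(6 2^a N)) = D(q^(3N))^(2^(a+1))`, `D(q^(2 2^a N)) = D(q^N)^(2^(a+1))`. -/
def XI (N A : ℕ) (NN : ℕ → Finset ℕ) : LL :=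
  ∑ a ∈ range A, ∑ n ∈ NN a,
    (HC n N (fun e ζ => kap (sig e ζ DDk) (sig (3 * N) 1 DDk ^ 2 ^ (a + 1))) +
     HC n (3 * N) (fun e ζ => kap (sig e ζ DDk) (sig N 1 DDk ^ 2 ^ (a + 1))))

end Pool.Agent.QP
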