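import Pool.Agent.helper69.QP.RAT
import Pool.Agent.helper97.IG.NM

/-!
# Project qp (MP_ebc808_nt), Theorem Q+, quantitative form: the measure for one function
-/

set_option autoImplicit false

open Polynomial Pool.Agent.helper7.IG

noncomputable section

namespace Pool.Agent.QP

/-- A function in `MM` which is not a constant is badly approximable by rational functions of the variable. -/
theorem MSR (hIND : IND_stmt) (hZE : ZE_stmt) (G : LL) (hG : G ∈ MM)
    (hne : ¬ ∃ c : kk, G = algebraMap kk LL c) :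
    ∃ K : ℕ, ∀ (H : ℕ) (A B : Polynomial kk), A ≠ 0 → A.natDegree ≤ H → B.natDegree ≤ H →
      incl A * G + incl B ≠ 0 ∧ (incl A * G + incl B).order ≤ ((K * (H + 1) : ℕ) : ℤ) := by
  obtain ⟨n, C, hNM⟩ := NM Bool (fun i => bif i then G else 1)
    (by intro i; cases i; exact one_mem MM; exact hG)
  obtain ⟨K₀, hK₀⟩ := hZE n
  refine ⟨K₀ * (n + 1) + C, ?_⟩
  intro H A B hA hAH hBH
  have hsum : (∑ i : Bool, incl ((fun i : Bool => bif i then A else B) i) * (fun i => bif i then G else 1) i)
      = incl A * G + incl B := by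
    rw [Fintype.sum_bool]
    simp
  have h0 : incl A * G + incl B ≠ 0 := by
    intro h
    apply hne
    refine RAT hIND G A (-B) hG hA ?_
    rw [map_neg]
    exact eq_neg_of_add_eq_zero_left h
  refine ⟨h0, ?_⟩
  obtain ⟨P, hP0, hP1, hP2, hP3⟩ := hNM H (fun i : Bool => bif i then A else B)
    (by intro i; cases i; exact hBH; exact hAH) (by rw [hsum]; exact h0)
  rw [hsum] at hP3
  have h1 := hK₀ (n * H) P hP0 hP1 hP2
  refine hP3.trans ?_
  have h2 : (ev P).order + C ≤ ((K₀ * (n * H + 1) + C : ℕ) : ℤ) := by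
    push_cast
    push_cast at h1
    linarith
  refine h2.trans ?_
  have h3 : K₀ * (n * H + 1) + C ≤ (K₀ * (n + 1) + C) * (H + 1) := by
    have h4 : n * H + 1 ≤ (n + 1) * (H + 1) := by nlinarith
    have h5 : K₀ * (n * H + 1) ≤ K₀ * ((n + 1) * (H + 1)) := Nat.mul_le_mul_left _ h4
    have h6 : C ≤ C * (H + 1) := Nat.le_mul_of_pos_right _ (Nat.succ_pos _)
    calc K₀ * (n * H + 1) + C ≤ K₀ * ((n + 1) * (H + 1)) + C * (H + 1) := Nat.add_le_add h5 h6
      _ = (K₀ * (n + 1) + C) * (H + 1) := by ring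
  exact_mod_cast h3

end Pool.Agent.QP
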