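import Pool.Agent.helper30.QP.SpecK

/-!
# QP (MP_ebc808_nt), Theorem Q**: the parities are taken at least c x^(1/2) / log x times

Improvement of Theorem Q* of helper30 (SpecK): every prime `l > C` divides an `m ≤ C l^2` with the wanted parity (Q*: `m ≤ C l^3`).
Idea: `F' = PN N F`, `TL l B F'` = the value of `F'` at `(B,1)` plus its values at ALL the `l`-neighbours of `(B,1)`. It is fixed by the automorphisms which fix the vertices `(B M, η)`, `M ∣ 3 N`, so it has a bounded number of conjugates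
over `kk(D(q^B))` and height `≤ M (l+2)`; `TL l B F' = f + H`, `f = sig (l B) 1 F'`, `H = HU l B F' (l B, 1)` (SpecK). Let `G(x,y)` be a relation `G(F', sig 3 1 F') = 0` with `G_x(F', sig 3 1 F') ≠ 0`, `s` the order of `G_x(F', sig 3 1 F')`. Put `E = G(TL l B F', TL l (3B) F')`. As `G(f, sig 3 1 f) = 0`,
`E = G_x(f, sig 3 1 f) H + O(H^2) + O(sig 3 1 H)`. So if `H` has order `B n`, then `n ≤ l s`, or `E ≠ 0` has the order `B (l s + n)`, and by the height lemma (bounded number of conjugates, height `≤ C (l+2)`) `n ≤ C l`.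

Rows: file `Pool/Agent/<seat>/QP/XXX.lean`, import `Pool.Agent.helper19.QP.SpecM`, namespace `Pool.Agent.QP`, `open Polynomial Pool.Agent.helper7.IG`, auxiliary lemmas prefixed `XXX_`. The statements `ME_stmt DI_stmt NB_stmt PSI_stmt ..` of `helper7/IG` and the rows of `SpecC`, `SpecV` are proved;
the rows of `SpecK` may be used as hypotheses. Characteristic 2 everywhere.
-/

set_option autoImplicit false

open Polynomial Pool.Agent.helper7.IG

noncomputable section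

namespace Pool.Agent.QP

/-- **Theorem Q\*\***. -/
def QSQRT_stmt : Prop :=
  ∀ S : Finset ℕ, S.Nonempty → (∀ D ∈ S, D % 24 = 23) → ∀ N : ℕ, 1 ≤ N → ∀ e : ZMod 2,
    (∃ C : ℕ, ∀ l : ℕ, l.Prime → C ≤ l → ∃ m : ℕ, 0 < m ∧ l ∣ m ∧ m ≤ C * l ^ 2 ∧
      m.Coprime (6 * N) ∧ (∑ D ∈ S, (Fintype.card (Nat.Partition ((D * m ^ 2 + 1) / 24)) : ZMod 2)) = e) ∧
    ∃ c : ℝ, 0 < c ∧ ∀ᶠ x : ℕ in Filter.atTop, c * (x : ℝ) ^ (1 / 2 : ℝ) / Real.log x ≤
      (({m : ℕ | (m.Coprime (6 * N) ∧ (∑ D ∈ S, (Fintype.card (Nat.Partition ((D * m ^ 2 + 1) / 24)) : ZMod 2)) = e) ∧ m ≤ x}.ncard : ℕ) : ℝ)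

/-! ### The relation -/

/-- The value of a polynomial in two variables; the outer variable is `x`. -/
def ev2 (G : Polynomial (Polynomial kk)) (x y : LL) : LL := G.eval₂ (aeval (R := kk) y).toRingHom x

/-- Row REA (short-medium). Two elements of `MM` are algebraically dependent over `kk`. `MM` is algebraic over `IntermediateField.adjoin kk {DDk}` (`mem_MM`). Either: transcendence degree (`AlgebraicIndependent`, `IsTranscendenceBasis`, the one-element family `DDk` is a transcendence basis of `MM` over `kk`; two algebraically independent elements would be too many), or by hand: if `F₁` is algebraic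
over `kk` take the minimal polynomial of `F₁` (outer variable). Otherwise clear the denominators in an equation of `F₁` over `kk(D)`: `P(F₁, D) = 0`, `P ≠ 0` in `kk[x,y]`; as `F₁` is transcendental over `kk`, `P(F₁, y) ≠ 0`, so `D` is algebraic over `kk(F₁)`, hence `F₂` (algebraic over `kk(D)`) is algebraic over `kk(F₁)` (`IsAlgebraic.trans`, `Algebra.IsAlgebraic.trans`); clear the denominators. -/
def REA_stmt : Prop := ∀ F₁ F₂ : LL, F₁ ∈ MM → F₂ ∈ MM → ∃ G : Polynomial (Polynomial kk), G ≠ 0 ∧ ev2 G F₁ F₂ = 0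

/-- Row REL (medium, from `REA ME`). `F₂ = sig 3 1 F` is in `MM` (ME). Among all `G ≠ 0` with `ev2 G F F₂ = 0` (REA) choose one for which `d G` = `natDegree G` + the maximum of the degrees of the coefficients is minimal (`Nat.find`). Suppose `ev2 (derivative G) F F₂ = 0`. If `derivative G ≠ 0` then `d (derivative G) < d G` (the degree in the outer variable drops,
the coefficients are multiples of coefficients of `G`), contradiction. So `derivative G = 0`: the coefficient of `X^i` in `G` is `0` for odd `i` (characteristic 2). `kk` is perfect (algebraically closed): every element is a square. So `G = A^2 + C X * B^2` (`C X` = the inner variable): the coefficient of `X^(2 i)` in `G` is `g = ∑_j g_j X^j = (∑_j √g_(2j) X^j)^2 + X (∑_j √g_(2j+1) X^j)^2`;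
`A`, `B` collect these square roots. `d A, d B ≤ d G / 2`, and `d G > 0` (a nonzero constant has nonzero value), so `d A, d B < d G`; `(A, B) ≠ (0, 0)`. `0 = ev2 G F F₂ = a^2 + F₂ b^2`, `a = ev2 A F F₂`, `b = ev2 B F F₂`. If `b ≠ 0` then `F₂ = (a/b)^2`, and a square in `LL` has only even exponents (`(z^2).coeff n = 0` for odd `n`: symmetry of the product,
or Frobenius); but `F₂.coeff (3 n) = F.coeff n ≠ 0` for an odd `n`. So `b = 0`, `a = 0`, and one of `A`, `B` contradicts the minimality. -/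
def REL_stmt : Prop := ∀ F : LL, F ∈ MM → (∃ n : ℤ, Odd n ∧ F.coeff n ≠ 0) →
  ∃ G : Polynomial (Polynomial kk), ev2 G F (sig 3 1 F) = 0 ∧ ev2 (derivative G) F (sig 3 1 F) ≠ 0

/-- Row TAY (medium). `J` = the set of the Laurent series without coefficients below `2 r`, `R` = the power series (no coefficients below `0`): `J` is closed under sums and under products with elements of `R`, `R` is closed under sums and products and contains the values of polynomials at elements of `R`. (1) `ev2 G x (f' + d') - ev2 G x f'` is in `J` for `x ∈ R`: sum over `i`, `j` of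
`g_ij x^i ((f' + d')^j - f'^j)`, and `(f' + d')^j - f'^j` is `d'` times an element of `R` (`sub_dvd_pow_sub_pow` in the ring `R`, or induction on `j`). (2) `ev2 G (f + d) f' - ev2 G f f' - ev2 (derivative G) f f' * d` is `d^2` times an element of `R`: for a monomial `X^i` it is `(f + d)^i - f^i - i f^(i-1) d`, induction on `i` (or `Polynomial.binomExpansion` in the ring `R`);
`d^2 ∈ J`. It is convenient to work in `PowerSeries kk` (`HahnSeries.ofPowerSeries ℤ kk`) with the ideal `X^(2r)`. -/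
def TAY_stmt : Prop := ∀ (G : Polynomial (Polynomial kk)) (f f' d d' : LL) (r : ℕ),
  (∀ n : ℤ, n < 0 → f.coeff n = 0 ∧ f'.coeff n = 0) → (∀ n : ℤ, n < r → d.coeff n = 0) → (∀ n : ℤ, n < 2 * r → d'.coeff n = 0) →
  ∀ n : ℤ, n < 2 * r → (ev2 G (f + d) (f' + d')).coeff n = (ev2 G f f' + ev2 (derivative G) f f' * d).coeff n

/-! ### The symmetric function -/

/-- The value of `F` at `(B, 1)` plus the sum of its values at all the `l`-neighbours. -/
def TL (l B : ℕ) (F : LL) : LL := sig B 1 F + ∑ u ∈ AN l B, sig u.1 u.2 F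

/-- The function `E = G(TL l B F, TL l (3 B) F)`. -/
def EE2 (G : Polynomial (Polynomial kk)) (l B : ℕ) (F : LL) : LL := ev2 G (TL l B F) (TL l (3 * B) F)

/-- `E` times the denominators. -/
def Y2 (F : LL) (Q : Polynomial kk) (G : Polynomial (Polynomial kk)) (a b l B : ℕ) : LL :=
  PI0 Q l B ^ a * PI0 Q l (3 * B) ^ b * EE2 G l B F

/-- Row KEA (medium, from `ANF HHC TAY`). `F` has no negative exponents. `(l B, 1) ∈ AN l B` (ANF), so `TL l B F = f + H`, `f = sig (l B) 1 F`, `H = HU l B F (l B, 1)` (`Finset.add_sum_erase`), and `TL l (3 B) F = f' + H'`, `f' = sig (l (3 B)) 1 F = sig (l B) 1 (sig 3 1 F)` (`sig_sig`), `H' = HU l (3 B) F (l (3 B), 1)`. HHC: the coefficient of `H` at `m` is `F.coeff (l (m/B)) + F.coeff (m/B)` if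
`B ∣ m`, else `0`; so it is `0` for `m < B n₀` and `≠ 0` at `B n₀`; `H'` has no coefficients below `3 B n₀ ≥ 2 B n₀`. `ev2 G f f' = sig (l B) 1 (ev2 G F (sig 3 1 F)) = 0` (`sig` is a `kk`-algebra homomorphism), `ev2 (derivative G) f f' = sig (l B) 1 W`, `W = ev2 (derivative G) F (sig 3 1 F)`, so its coefficients vanish below `l B s` and the one at `l B s` is `W.coeff s`.
TAY with `r = B n₀`: the coefficients of `E` below `2 B n₀` are those of `sig (l B) 1 W * H`, whose lowest one is at `l B s + B n₀ < 2 B n₀` (`l s < n₀`), equal to `W.coeff s * H.coeff (B n₀) ≠ 0`. -/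
def KEA_stmt : Prop := ∀ (F : LL) (G : Polynomial (Polynomial kk)) (l B s n₀ : ℕ), (∀ n : ℤ, n < 0 → F.coeff n = 0) → l.Prime → l ≠ 2 → Odd B → l ∣ B →
  ev2 G F (sig 3 1 F) = 0 → (∀ n : ℤ, n < s → (ev2 (derivative G) F (sig 3 1 F)).coeff n = 0) → (ev2 (derivative G) F (sig 3 1 F)).coeff s ≠ 0 →
  (∀ n : ℤ, n < n₀ → F.coeff (l * n) + F.coeff n = 0) → F.coeff (l * n₀) + F.coeff n₀ ≠ 0 → l * s < n₀ →
  (EE2 G l B F).coeff ((B * (l * s + n₀) : ℕ) : ℤ) ≠ 0 ∧ ∀ n : ℤ, n < ((B * (l * s + n₀) : ℕ) : ℤ) → (EE2 G l B F).coeff n = 0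

/-- Row TLI (medium, from `ANF PNI PNB`; as YIN of SpecK). Let `R` be the integral closure of `kk[D(B,1)]` in `LL`. The `D(u)`, `u ∈ AN l B`, are in `R` (PNI, ANF), so the `Q(D(u))` and (transitivity) the `Q(D(u)) sig u F` are in `R`; the same for `(B,1)`. `PI0 * sig u F = Q(D(B,1)) (Q(D(u)) sig u F) ∏_(u' ≠ u) Q(D(u'))`, `PI0 * sig B 1 F = (Q(D(B,1)) sig B 1 F) ∏ Q(D(u))`.
Values: `v (D(u)) ≤ max G 1 = G` (PNB), so every `Q(D(u))` and `Q(D(u)) sig u F` has value `≤ G^M` and every product has at most `card + 1 ≤ l + 2` factors (ANF), so value `≤ G^(M (l+2))` (`G ≥ 1`). -/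
def TLI_stmt : Prop := ∀ (F : LL) (Q : Polynomial kk) (M l B : ℕ), Den F Q M → l.Prime → l ≠ 2 → Odd B → l ∣ B →
  IsIntegral (Algebra.adjoin kk {sig B 1 DDk}) (PI0 Q l B * TL l B F) ∧ IsIntegral (Algebra.adjoin kk {sig B 1 DDk}) (PI0 Q l B) ∧
  ∀ (V : ValuationSubring LL) (G : V.ValueGroup), (∀ c : kk, algebraMap kk LL c ∈ V) → 1 ≤ G → V.valuation (sig B 1 DDk) ≤ G →
    V.valuation (PI0 Q l B * TL l B F) ≤ G ^ (M * (l + 2)) ∧ V.valuation (PI0 Q l B) ≤ G ^ (M * (l + 2))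

/-- Row YI2 (medium, from `TLI PNI PNB`). `(3 B, 1)` is a 3-neighbour of `(B, 1)`, so `D(3B,1)` is integral over `kk[D(B,1)]` (PNI) and TLI for `3 B` gives integrality over `kk[D(B,1)]` (transitivity), and `v (D(3B,1)) ≤ max (v (D(B,1))) 1` (PNB). With `p = PI0 Q l B`, `p' = PI0 Q l (3 B)`, `x`, `y` the two `TL`: `Y2 = ∑_(i ≤ a, j ≤ b) g_ij (p x)^i p^(a-i) (p' y)^j p'^(b-j)`,
`g_ij ∈ kk` (`Polynomial.eval₂_eq_sum_range'`, `aeval_eq_sum_range'`), so it is integral and, with `G = v (D(B,1)) > 1`, of value `≤ (G^(M (l+2)))^(a+b)`. -/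
def YI2_stmt : Prop := ∀ (F : LL) (Q : Polynomial kk) (G : Polynomial (Polynomial kk)) (M a b l B : ℕ), Den F Q M → l.Prime → l ≠ 2 → Odd B → l ∣ B →
  G.natDegree ≤ a → (∀ i, (G.coeff i).natDegree ≤ b) →
  IsIntegral (Algebra.adjoin kk {sig B 1 DDk}) (Y2 F Q G a b l B) ∧ IsIntegral (Algebra.adjoin kk {sig B 1 DDk}) (PI0 Q l B ^ a * PI0 Q l (3 * B) ^ b) ∧
  ∀ V : ValuationSubring LL, (∀ c : kk, algebraMap kk LL c ∈ V) → sig B 1 DDk ∉ V → V.valuation (Y2 F Q G a b l B) ≤ V.valuation (sig B 1 DDk) ^ ((a + b) * (M * (l + 2)))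

/-- Row ORT (medium, from `HP2 ANF PMM DI NB ME`; as ORA of SpecK). `B0` = `l` times the number of HP2. `γ` fixes `D (B,1)` (`M = 1`). For `u' ∈ AN l B` there is `u'' ∈ AN l B` with `γ (D u') = D u''` (NB); the map is injective (DI), so a permutation of the finite set `AN l B`. `γ (cl (aeval (D u') Q)) = cl (aeval (D u'') Q)` (`cl` is a ring homomorphism on `MM`, `γ` over `kk`),
so `γ` fixes `cl (PI0 Q l B)`; `γ (cl (sig u' F')) = cl (sig u'' F')` and `cl (sig B 1 F')` is fixed (HP2), so `γ` fixes `cl (TL l B F')`. -/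
def ORT_stmt : Prop := ∀ (F : LL) (N l : ℕ), Inv3 F → Odd N → Squarefree N → l.Prime → l ≠ 2 → l ≠ 3 → N.Coprime l →
  ∃ B0 : ℕ, Odd B0 ∧ ∀ (Q : Polynomial kk) (Φ : Frame) (γ : Φ.A ≃ₐ[kk] Φ.A) (B : ℕ), Odd B → B0 ∣ B → FxN Φ γ B N →
    γ (Φ.cl (TL l B (PN N F))) = Φ.cl (TL l B (PN N F)) ∧ γ (Φ.cl (PI0 Q l B)) = Φ.cl (PI0 Q l B)

/-- Row ORF (short-medium, from `ORT PMM ME`). `FxN Φ γ B (3 * N)` (the vertices `(B M, η)`, `M ∣ 9 N`, `η ^ (3 N) = 1`) implies `FxN Φ γ B N` and `FxN Φ γ (3 * B) N` (`3 B M = B (3 M)`, `3 M ∣ 9 N`; `η ^ N = 1` implies `η ^ (3 N) = 1`). ORT for `B` and `3 B`: `γ` fixes `cl` of the four factors; `cl` is additive and multiplicative on `MM` and `γ` is a `kk`-algebra automorphism, so it fixes `cl (Y2 ..)`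
(`ev2 G x y = ∑ g_ij x^i y^j`; all the elements are in `MM`: PMM, ME). -/
def ORF_stmt : Prop := ∀ (F : LL) (N l : ℕ), Inv3 F → Odd N → Squarefree N → l.Prime → l ≠ 2 → l ≠ 3 → N.Coprime l →
  ∃ B0 : ℕ, Odd B0 ∧ ∀ (Q : Polynomial kk) (G : Polynomial (Polynomial kk)) (a b : ℕ) (Φ : Frame) (γ : Φ.A ≃ₐ[kk] Φ.A) (B : ℕ), Odd B → B0 ∣ B → FxN Φ γ B (3 * N) →
    γ (Φ.cl (Y2 (PN N F) Q G a b l B)) = Φ.cl (Y2 (PN N F) Q G a b l B)

/-- Row OR2 (short-medium, from `IDX ORF`). `C`, `T` from IDX for `3 N`. If `g, g'` fix `D (B,1)` and `tup Φ B (3 N) g = tup Φ B (3 N) g'` then `γ = g⁻¹ g'` satisfies `FxN Φ γ B (3 N)` (for `M ∣ 9 N`, `η ^ (3 N) = 1`: `g (D (B M, η)) = g' (D (B M, η))`), so by ORF `g' (cl Y) = g (cl Y)`. So the set of the `g (cl Y)` is the image of a subset of `T` (choose for every `t ∈ T` which occurs one `g`),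
it is finite with at most `C` elements; `O` = this set. -/
def OR2_stmt : Prop := ∀ N : ℕ, Odd N → Squarefree N → ∃ C : ℕ, ∀ (F : LL) (l : ℕ), Inv3 F → l.Prime → l ≠ 2 → l ≠ 3 → N.Coprime l →
  ∃ B0 : ℕ, Odd B0 ∧ ∀ (Q : Polynomial kk) (G : Polynomial (Polynomial kk)) (a b : ℕ) (Φ : Frame) (B : ℕ), Odd B → B0 ∣ B → ∃ O : Finset Φ.A, O.card ≤ C ∧
    ∀ o : Φ.A, o ∈ O ↔ ∃ g : Φ.A ≃ₐ[kk] Φ.A, g (Φ.D (B, 1)) = Φ.D (B, 1) ∧ o = g (Φ.cl (Y2 (PN N F) Q G a b l B))

/-- Row KE2 (medium, from `LEMC PMM INT REL KEA YI2 NVH OR2 FRA POL HTL HHC INO ME`). `F' = PN N F ∈ MM` (PMM), not constant (LEMC with `P = 1`, `Q = C c`; `PN N F` constant implies `F` constant). `G` from REL, `a = natDegree G`, `b` = the maximum of the degrees of its coefficients, `s` = the order of `W = ev2 (derivative G) F' (sig 3 1 F')` (no negative exponents, `W ≠ 0`). `Q, M` from INT for `F'`; `C₁` from OR2;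
`C = s + 3 (a + b) M C₁`. Given `l`: `B` = product of the numbers `B0` of NVH and OR2 and `l`. `HU l B F' (l B, 1) ≠ 0` (NVH), so by HHC there is a least `n₀` (in `ℤ`; it is `≥ 0` as `F'` has no negative exponents) with `F'.coeff (l n₀) + F'.coeff n₀ ≠ 0`. If `n₀ ≤ l s`: done. Otherwise KEA: `E = EE2 G l B F'` has the order `B (l s + n₀)`, in particular `E ≠ 0`. `Y = Y2 .. = p * E`,
`p = PI0 Q l B ^ a * PI0 Q l (3 B) ^ b ≠ 0` (the `D(u)` are transcendental over `kk`, `Q ≠ 0`). `Φ` from FRA, `O` from OR2, `t, P` from POL (`Y ∈ MM`). `Y ^ (2^t)` satisfies the hypotheses of HTL with `T = (a + b) M (l+2) 2^t` (YI2) and `k = C₁`: a coefficient of `Y^(2^t)` at some `n ≤ B k T` is not zero, so `2^t` times the order of `Y` is `≤ B C₁ (a+b) M (l+2) 2^t`,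
and `p` has order `≥ 0` (INO), so `B n₀ ≤ B (l s + n₀) ≤ B C₁ (a+b) M (l+2)`, `n₀ ≤ 3 C₁ (a+b) M l`. -/
def KE2_stmt : Prop := ∀ (F : LL) (N : ℕ), Inv3 F → (∀ n : ℤ, n < 0 → F.coeff n = 0) → Squarefree N → N.Coprime 6 → (∀ c : kk, F ≠ algebraMap kk LL c) →
  (∃ n : ℤ, Odd n ∧ (PN N F).coeff n ≠ 0) →
  ∃ C : ℕ, ∀ l : ℕ, l.Prime → 5 ≤ l → N.Coprime l → ∃ n : ℕ, n ≤ C * l ∧ (PN N F).coeff ((l * n : ℕ) : ℤ) + (PN N F).coeff (n : ℤ) ≠ 0

/-! ### Arithmetic -/

/-- Row ODD (short). `PN N F` is not a constant: some `n ≠ 0` with `(PN N F).coeff n ≠ 0`; `n > 0`, `n = 2^a n'`, `n'` odd. `gcd (n', N) = 1`, and the divisors `m` of `n` with `β m ≠ 0` are odd, so they are the divisors of `n'` with `β m ≠ 0`: `(PN N F).coeff n' = (PN N F).coeff n ≠ 0` (`PN_coeff`). -/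
def ODD_stmt : Prop := ∀ (F : LL) (β : ℕ → kk) (N : ℕ), (∀ n : ℤ, n < 0 → F.coeff n = 0) → (∀ n : ℕ, 0 < n → F.coeff (n : ℤ) = ∑ m ∈ n.divisors, β m) →
  (∀ m : ℕ, β m ≠ 0 → Odd m) → (∀ c : kk, PN N F ≠ algebraMap kk LL c) → ∃ n : ℤ, Odd n ∧ (PN N F).coeff n ≠ 0

/-- Row CH2 (medium; only Mathlib, a lower bound of Chebyshev type for the number of primes; as CHB of SpecK). `C ≥ 1`. For large `x` let `y = ⌊(x/C)^(1/2)⌋`, so `C y^2 ≤ x`. For every prime `l` with `y^(5/6) < l ≤ y` (so `l ≥ l0`) choose `m_l ∈ A`, `l ∣ m_l`, `m_l ≤ C l^2 ≤ x`. A given `m ≤ C y^2` is `m_l` for at most 2 of these primes (the product of 3 of them is `> y^(5/2) > C y^2` for large `y`;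
or with `√y < l`: at most 4 of them). So the count is at least `(π(y) - y^(5/6))/2 ≥ c y/log y` (`π(y) ≥ c₀ y/log y`). `y ≥ (x/C)^(1/2)/2`, `log y ≤ log x`. -/
def CH2_stmt : Prop := ∀ (A : Set ℕ) (C l0 : ℕ), (∀ l : ℕ, l.Prime → l0 ≤ l → ∃ m ∈ A, 0 < m ∧ l ∣ m ∧ m ≤ C * l ^ 2) →
  ∃ c : ℝ, 0 < c ∧ ∀ᶠ x : ℕ in Filter.atTop, c * (x : ℝ) ^ (1 / 2 : ℝ) / Real.log x ≤ (({m : ℕ | m ∈ A ∧ m ≤ x}.ncard : ℕ) : ℝ)

end Pool.Agent.QP
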