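import Pool.Agent.helper19.QP.Defs

/-!
# Project qp (MP_ebc808_nt), Theorem Q+: block V (the supersingular place)

Paper proof: /team-store/H6_ebc808_Qplus_skeleton_helper19.md, step 2. The aim is `PSN`: the function `XI` (the modular function
whose `q`-coefficients are the sums of the parities) is not constant, also after adding `UU`.
`D = DDk`; `y = D(q^N)`, `z = D(q^(3N))`, `r = UU(q^N)`, `y = r (r+1)^3`, `z = r^3 (r+1)`. `V` is a valuation subring of `LL` that contains `kk`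
and not `r`; `v = V.valuation` (`V.valuation_le_one_iff`: `v F ≤ 1 ↔ F ∈ V`; the value group is a linearly ordered commutative group
with zero, `V.valuation` is a `Valuation`: `map_mul`, `map_add`: `v (F + G) ≤ max (v F) (v G)`, `Valuation.map_add_eq_of_lt_left` ...). Characteristic 2:
`F + F = 0`, `- F = F`.

RULES. Row `XX`: file `Pool/Agent/<seat>/QP/XX.lean`, import this file (and the landed files named in the docstring), `namespace Pool.Agent.QP`,
auxiliary lemmas prefixed `XX_`, other rows only as hypotheses `(hYY : YY_stmt)`.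
-/

set_option autoImplicit false

open Finset

noncomputable section

namespace Pool.Agent.QP

open Pool.Agent.helper7.IG (kk LL sig DDk MM im2 ps Vx Nb Frame)
open Pool.Agent.LQ (FF DD)

/-- **URU** (short, 40 lines). The roots of unity. `m` odd. Proof. `{ζ | ζ^m = 1}` is finite (`rootsOfUnity m kk` is a finite group for `m ≠ 0`), so `ζ ∈ RU m ↔ ζ^m = 1`.
`kk` is algebraically closed of characteristic 2 and `m` is odd: there is a primitive `m`-th root `ω` (`HasEnoughRootsOfUnity` or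
`IsAlgClosed.exists_pow_nat_eq` / `IsSepClosed`; Pool/Agent/helper7/IG/Basic.lean and its users have it), `RU m` is the image of `range m` under `j ↦ ω^j`. The sum of the
`t`-th powers is `m = 1` if `m ∣ t` and `0` otherwise (`IsPrimitiveRoot.geom_sum_eq_zero` for `ω^t`, or multiply the sum by `ω^t ≠ 1`, which permutes it). -/
def URU_stmt : Prop := ∀ m : ℕ, Odd m → (∀ ζ : kkˣ, ζ ∈ RU m ↔ ζ ^ m = 1) ∧
  ∀ t : ℤ, ∑ ζ ∈ RU m, ((ζ ^ t : kkˣ) : kk) = if (m : ℤ) ∣ t then 1 else 0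

/-- **UHM** (medium, 90 lines). `UU^2 + UU = D(q) + D(q^3)`.
Proof. Let `u n` be the number of divisors of `n` prime to 6 (in `kk`, i.e. modulo 2). The coefficient of `UU^2 = UU(q^2)` (Frobenius; the coefficients are in
the prime field; e.g. write `UU = im2 (PowerSeries.mk ..)` and use `Pool.Agent.helper12.PE.pow_eq_expand` or `EXP` of LQ, or the symmetry of the Cauchy product) at
`n` is `u (n/2)` if `2 ∣ n`, else `0`. For even `n`, `u n = u (n/2)` (the divisors prime to 6 of `n` and `n/2` are the same), the coefficient of the left side is `0`,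
and on the right side all exponents are odd. For odd `n = 3^b n'`, `n'` prime to 6, `u n` is the number of divisors of `n'`, odd iff `n'` is a
square (the divisors prime to 6 of `n` are the divisors of `n'`; `d ↦ n'/d` is an involution; cf. row PS1 of LQ, Pool/Agent/*/LQ/PS1.lean). If `n' = w^2`: `n = (3^(b/2) w)^2`
for even `b`, `n = 3 (3^((b-1)/2) w)^2` for odd `b`, and conversely; the two cases exclude each other. The right side: `DDk_coeff` (Pool/Agent/helper7/IG/Basic.lean) and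
`sig_coeff`. -/
def UHM_stmt : Prop := UU ^ 2 + UU = DDk + sig 3 1 DDk

/-- **UHD** (short, 40 lines; uses UHM and `PHI3` of IG (Pool/Agent/helper17/IG/PHI3.lean): `DDk^4 + (sig 3 1 DDk)^4 = DDk * sig 3 1 DDk`). The Hauptmodul.
Proof. `y = DDk`, `z = sig 3 1 DDk`, `r = UU`, `s = y + z = r^2 + r`, `y z = y^4 + z^4 = s^4`. `y' = r (r+1)^3`, `z' = r^3 (r+1)`: `y' + z' = r(r+1)((r+1)^2 + r^2) = s`, `y' z' = s^4`. So
`(y + y')(y + z') = y^2 + s y + s^4 = y^2 + (y+z) y + y z = 0`, hence `y = y'` or `y = z'`. The coefficient of `y` at `1` is `1`; `r` has no coefficients at exponents `≤ 0`, so `z' = r^3 (r+1)` has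
coefficient `0` at `1` (order `≥ 3`). So `y = y'` and `z = s + y = z'`. -/
def UHD_stmt : Prop := DDk = UU * (UU + 1) ^ 3 ∧ sig 3 1 DDk = UU ^ 3 * (UU + 1)

/-- **PLC** (short, 50 lines; Mathlib `Subring.exists_le_valuationSubring_of_isIntegrallyClosedIn`). The place.
Proof. `R` = range of `algebraMap kk LL` (a subring). `R` is integrally closed in `LL`: an element of `LL` integral over `kk` is a root of a monic polynomial over
the algebraically closed field `kk`, which splits into linear factors, so it is in `R`. `x = sig N 1 UU` is not in `R`: its coefficient at `N` is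
`u(1) = 1` (`sig_coeff_mul`), elements of `R` have coefficient `0` at `N ≠ 0`. -/
def PLC_stmt : Prop := ∀ N : ℕ, N ≠ 0 → ∃ V : ValuationSubring LL,
  (∀ c : kk, algebraMap kk LL c ∈ V) ∧ sig N 1 UU ∉ V

/-- **PVB** (short, 50 lines; uses UHD). Basic values. Proof. `c ≠ 0`: `c` and `c⁻¹` are in `V`, so `v c = 1`. `r ∉ V` iff `1 < v r`. Then `v (r + 1) = v r` (`v 1 = 1 < v r`). `sig N 1` is a ring homomorphism,
`sig N 1 (sig 3 1 F) = sig (3 N) 1 F` (`sig_sig`), so UHD gives `sig N 1 DDk = r (r+1)^3`, `sig (3 N) 1 DDk = r^3 (r+1)`. -/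
def PVB_stmt : Prop := ∀ (N : ℕ) (V : ValuationSubring LL), N ≠ 0 →
  (∀ c : kk, algebraMap kk LL c ∈ V) → sig N 1 UU ∉ V →
  (∀ c : kk, c ≠ 0 → V.valuation (algebraMap kk LL c) = 1) ∧ 1 < V.valuation (sig N 1 UU) ∧
  V.valuation (sig N 1 DDk) = V.valuation (sig N 1 UU) ^ 4 ∧
  V.valuation (sig (3 * N) 1 DDk) = V.valuation (sig N 1 UU) ^ 4 ∧
  sig N 1 DDk = sig N 1 UU * (sig N 1 UU + 1) ^ 3 ∧
  sig (3 * N) 1 DDk = sig N 1 UU ^ 3 * (sig N 1 UU + 1)

/-- **PNB** (medium, 100 lines; uses `PSI` of IG (Pool/Agent/helper41/IG/PSI.lean)). Neighbours: `D(u)` is integral over `kk[D(v)]`, with degrees.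
Proof. Let `Ψ` be as in PSI for `p`. For a Laurent series `b` write `Ψ_b` for the polynomial `Ψ.map (aeval b)` over `LL`, monic of degree `p+1` with coefficients `c_i(b)`,
`c_i` a polynomial over `kk` of degree `≤ p+1-i`. (1) Down: `v = (p e, η^p)`, `u = (e, η)`: apply the ring homomorphism `sig e η` to PSI (`ω` a primitive `p`-th root of unity, it exists: `p` odd): `sig e η (sig p 1 DDk) = sig (p e) (η^p) DDk`
(`sig_sig`), and the factor `j = 0` shows `Ψ_b (sig e η DDk) = 0`, `b = sig (p e) (η^p) DDk`. (Condition: `v.1 = p u.1`, `u.2^p = v.2`.) (2) Up: `v = (e, η)`, `u = (p e, η^p)`: PSI gives `Ψ_b(sig (p*p) 1 DDk) = 0` for `b = sig p 1 DDk`, this is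
`sig p 1` applied to `Ψ_(DDk) (sig p 1 DDk)`, and `sig p 1` is injective (`sig_injective`), so `Ψ_(DDk)(sig p 1 DDk) = 0`; apply `sig e η`. (3) If `Ψ_b(x) = 0` then `v x ≤ max (v b) 1`: let `h = max (v b) 1`; `v (c_i(b)) ≤ h^(p+1-i)` (coefficients in `kk` have value `≤ 1`, and `h ≥ 1`).
If `v x > h` then `x^(p+1) = ∑_{i ≤ p} c_i(b) x^i` (characteristic 2), and every term on the right has value `≤ h^(p+1-i) (v x)^i < (v x)^(p+1)`, contradiction. -/
def PNB_stmt : Prop := ∀ V : ValuationSubring LL, (∀ c : kk, algebraMap kk LL c ∈ V) →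
  ∀ (p : ℕ) (v u : Vx), p.Prime → p ≠ 2 → v.1 ≠ 0 → u.1 ≠ 0 → Nb p v u →
  V.valuation (sig u.1 u.2 DDk) ≤ max (V.valuation (sig v.1 v.2 DDk)) 1

/-- **HCB** (medium, 80 lines; uses PNB). All conjugates. Proof. First up: for every odd `e > 0` the value of `sig (N e) 1 DDk` is `≤ max (v (sig N 1 DDk)) 1`: induction on the number of prime factors of `e` (`Nat.recOnMul` or `induction_on_primes`):
`(E, 1)` and `(p E, 1)` are neighbours. Then down: for every `m ∣ E` odd and `ζ^m = 1` the value of `sig (E/m) ζ DDk` is `≤ max (v (sig E 1 DDk)) 1`; more generally (induction on `m`): for all `E`, `η`, `m ∣ E`, `ζ^m = η`: the value of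
`sig (E/m) ζ DDk` is `≤ max (v (sig E η DDk)) 1` (`m = p m'`: `(E, η)` and `(E/p, ζ^(m'))` are neighbours as `(ζ^(m'))^p = η`; then `ζ^(m') = ζ^(m')` for `E/p`, `m'`). With `E = N (n/m)` (`m ∣ n ∣ N`). -/
def HCB_stmt : Prop := ∀ V : ValuationSubring LL, (∀ c : kk, algebraMap kk LL c ∈ V) →
  ∀ (N n m : ℕ) (ζ : kkˣ), N ≠ 0 → Odd n → n ∣ N → m ∣ n → ζ ^ m = 1 →
  V.valuation (sig (N * (n / m) / m) ζ DDk) ≤ max (V.valuation (sig N 1 DDk)) 1

/-- **HKS** (medium, 100 lines; uses URU). The Hecke operator as a sum over the conjugates.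
Proof. Compare the coefficients at `l`. For `m ∣ n`, `e = n/m`, `E = N e/m` (exact): the coefficient of `∑_{ζ ∈ RU m} sig E ζ (im2 G)` at `l` is `0` unless `l = E t`, and then it is `(∑_ζ ζ^t) coeff t G`, i.e. (URU)
`coeff t G` if `m ∣ t`, else `0` (`t ≥ 0`; for `t < 0` it is `0`). `t = m t'` means `l = N e t'`. So both sides are `0` unless `N ∣ l`, `l = N l'`, and then the term of `m` is `coeff (m l'/e) G` if `e ∣ l'`, else `0`; `m l'/e = n l'/e^2`. The right side at `N l'` is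
`coeff l' (T n G) = ∑_{d ∣ gcd(l', n)} coeff (l' n/d^2) G` (`LQ.coeff_T`; `d = e = n/m`; for `l' = 0` `gcd (0, n) = n`). The divisors `m` of `n` with `e = n/m ∣ l'` correspond to the divisors `e` of `gcd (l', n)` (`Nat.sum_div_divisors`). -/
def HKS_stmt : Prop := ∀ (n N : ℕ) (G : FF), Odd n → N ≠ 0 → n ∣ N →
  HC n N (fun e ζ => sig e ζ (im2 G)) = sig N 1 (im2 (Pool.Agent.LQ.T n G))

/-- **SDI** (medium, 110 lines; uses `LQ.BDA_stmt` (proved, Pool/Agent/helper57/LQ/BDA.lean), `LQ.TGR_stmt`, `LQ.GN2_stmt`, `LQ.AF3_stmt` as hypotheses). The operators `∑_{n ∈ NN} T_n` lower degrees.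
Proof. BDA gives `A` with `IsBD i A` (`i` odd). Put `P = ∑_{j ≤ i} C (∑_{n ∈ NN} coeff n (aeval DD (A j))) X^j`. For odd `b` the coefficients at `b` agree: `∑_n coeff b (T n (DD^i)) = ∑_n ∑_j coeff n (aeval DD (A j)) coeff b (DD^j)` (IsBD with `a = n`, odd). For even `b` both are `0`:
the exponents of `T n (DD^i)` are odd (`LQ.AF3_stmt` first part with `N = 2`, `T n ∈ TT 2`, the exponents of `DD^i` are `i mod 8`, TGR), `A j = 0` for even `j` (`IsBD`: a nonzero coefficient of `A j` forces `Odd j`), and the exponents of `DD^j`, `j` odd, are odd. If the coefficient of `P` at `j`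
is not `0` then `j` is odd and `0 ≠ ∑_n coeff n (aeval DD (A j)) = ∑_l (A j).coeff l * ∑_n coeff n (DD^l) = ∑_l (A j).coeff l [l ∈ K]` (`l` odd whenever `(A j).coeff l ≠ 0`; Rel), so there is `l ∈ K` with `(A j).coeff l ≠ 0`, `l + j ≤ i + 1`, and `k₀ ≤ l`. For `j = 1`: `A 1 = X^i`, the
coefficient is `∑_n coeff n (DD^i) = [i ∈ K]`. -/
def SDI_stmt : Prop := ∀ (NN K : Finset ℕ) (k₀ : ℕ), Rel NN K → (∀ k ∈ K, k₀ ≤ k) → ∀ i : ℕ, Odd i →
  ∃ P : Polynomial (ZMod 2), (∀ l : ℕ, P.coeff l ≠ 0 → Odd l ∧ l + k₀ ≤ i + 1) ∧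
    P.coeff 1 = (if i ∈ K then 1 else 0) ∧
    ∑ n ∈ NN, Pool.Agent.LQ.T n (DD ^ i) = Polynomial.aeval DD P

/-- **GEO** (short, 40 lines). The finite geometric series. Proof. `u = a/b`, `v u < 1`, so `1 + u ≠ 0`, `v (1 + u) = 1`, `kap a b = b/(a+b) = 1/(1+u)`, and in characteristic 2 `(1+u) ∑_{i<I} u^i = 1 + u^I`, so `kap a b + ∑_{i<I} u^i = u^I/(1+u)`
(as `1/(1+u) = ∑ u^i + u^I/(1+u)`). -/
def GEO_stmt : Prop := ∀ (V : ValuationSubring LL) (a b : LL) (I : ℕ), b ≠ 0 →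
  V.valuation (a / b) < 1 →
  V.valuation (kap a b + ∑ i ∈ range I, (a / b) ^ i) ≤ V.valuation (a / b) ^ I

/-- **LDT** (short-medium, 70 lines). The leading term. `y = r (r+1)^3`, `z = r^3 (r+1)`, `g = v r > 1`.
Proof. `y/z^(2k) + z/y^(2k) = (y^(2k+1) + z^(2k+1))/(y z)^(2k)`. `y = r(r+1)(r+1)^2`, `z = r(r+1) r^2`, so `y^(2k+1) + z^(2k+1) = (r(r+1))^(2k+1) W^2`, `W = (r+1)^(2k+1) + r^(2k+1)` (characteristic 2). `(r+1)^(2k+1) = r^(2k+1) + (2k+1) r^(2k) + ∑_{i<2k} C(2k+1,i) r^i`, so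
`W = r^(2k) + ` terms of value `≤ g^(2k-1)` (`2k+1 = 1` in characteristic 2; or by induction: `W_(k+1) = ...`; or `W = ∑_{i ≤ 2k} (r+1)^i r^(2k-i)` as `(r+1) + r = 1`: `2k+1` terms, each `r^(2k) +` terms of value `≤ g^(2k-1)`), `v W = g^(2k)`. So the value is
`g^(2(2k+1)) g^(4k)/g^(16k) = g^(8k+2-16k)`, i.e. times `g^(8k-2)` it is `1`. -/
def LDT_stmt : Prop := ∀ (V : ValuationSubring LL) (r : LL) (k : ℕ), 1 ≤ k → 1 < V.valuation r →
  V.valuation (r * (r + 1) ^ 3 / (r ^ 3 * (r + 1)) ^ (2 * k) +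
    r ^ 3 * (r + 1) / (r * (r + 1) ^ 3) ^ (2 * k)) * V.valuation r ^ (8 * k - 2) = 1

/-- **EST** (medium-long, 200 lines; uses HCB, HKS, SDI, GEO, `LQ.EXP_stmt`, and `im2 DD = DDk` (module F1 of IG, Pool/Agent/helper31/IG/F1.lean; `LQ.DD_def`)). The expansion at the place. `g > 1` is any value; `v (D(q^E)) = g^4 = v W`; `k₀` the least element of `K`, `k = 2^a k₀`.
Proof. `b = W^(2^(a+1))`, `v b = g^(8 2^a)`, `I = 2k`. For a conjugate `x' = (e, ζ)` of degree `n ∈ NN` put `u = D(x')/b`: by HCB `v (D(x')) ≤ max (g^4) 1 = g^4`, so `v u ≤ g^(4 - 8 2^a) ≤ g^(-4) < 1`, and by GEO `kap = ∑_{i<I} u^i + ` (value `≤ g^(-4I) = g^(-8k) ≤ g^(-(8k-1))`).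
Sum over the conjugates and over `n ∈ NN`: the coefficient of `b^(-i)` is `∑_n HC n E (sig e ζ (im2 (DD^i))) = sig E 1 (im2 (∑_n T n (DD^i)))` (HKS; ring homomorphisms). `i = 0`: `T n 1` is a constant (`coeff m (T n 1) = 0` for `m > 0`): this is `c`. `i ≥ 1`, `i = 2^t i'`, `i'` odd: `T n (DD^i) = (T n (DD^i'))^(2^t)` (EXP, `n` odd), so
`∑_n T n (DD^i) = (aeval DD P)^(2^t)`, `P` from SDI for `i'`; `sig E 1 (im2 (aeval DD P)) = ∑_l P_l D(q^E)^l` has value `≤ g^(4 (i'+1-k₀))` if `P ≠ 0` (then some `l ≥ 1` has `l + k₀ ≤ i' + 1`, so `k₀ ≤ i'`), all `l ≤ i' + 1 - k₀`. So the `i`-th term has value `≤ g^(-8 2^a i + 4 2^t (i'+1-k₀))`, `i' ≥ k₀`.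
 - `i = k₀` (`t = 0`): `P = X` (`P_l ≠ 0` forces `l = 1`; `P_1 = 1` as `k₀ ∈ K`): the term is exactly `D(q^E)/b^(k₀) = D(q^E)/W^(2^(a+1) k₀)`; `k₀ < I`.
 - `t = 0`, `i ≠ k₀`, `i ≥ k₀ + 2` (both odd): the exponent is `-8 2^a i + 4 (i+1-k₀)`, decreasing in `i` (slope `4 - 8 2^a < 0`), at `i = k₀+2`: `-8k - 16 2^a + 12 ≤ -8k - 4`.
 - `t ≥ 1`: the exponent is `-4 2^t (2 2^a i' - i' - 1 + k₀)`, and `2 2^a i' - i' - 1 + k₀ = (2 2^a - 1) i' - 1 + k₀ ≥ (2 2^a - 1) k₀ - 1 + k₀ = 2k - 1`, so it is `≤ -8 (2k-1) = -16k + 8 ≤ -(8k-1)` as `k ≥ 1`.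
In all cases value times `g^(8k-1)` is `≤ 1`. (It is convenient to write everything as: value `* g^A ≤ g^B` with natural `A`, `B`.) -/
def EST_stmt : Prop := ∀ (V : ValuationSubring LL) (E a k₀ : ℕ) (W : LL) (g : V.ValueGroup)
  (NN K : Finset ℕ), (∀ c : kk, algebraMap kk LL c ∈ V) → Odd E → 1 < g →
  V.valuation (sig E 1 DDk) = g ^ 4 → V.valuation W = g ^ 4 → Rel NN K → k₀ ∈ K →
  (∀ k ∈ K, k₀ ≤ k) → (∀ n ∈ NN, n ∣ E) → ∃ c : kk,
  V.valuation (∑ n ∈ NN, HC n E (fun e ζ => kap (sig e ζ DDk) (W ^ 2 ^ (a + 1))) +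
    algebraMap kk LL c + sig E 1 DDk / W ^ (2 ^ (a + 1) * k₀)) * g ^ (8 * (2 ^ a * k₀) - 1) ≤ 1

/-- **PSN** (medium, 120 lines; uses PLC, PVB, EST, LDT). The function `XI` is not constant, nor is `XI + UU(q^N)`.
Proof. `V` from PLC, `g = v r`, `r = UU(q^N)`, `y = D(q^N)`, `z = D(q^(3N))` (PVB). For `a < A` with `K a = ∅`: `NN a = ∅` (Rel: otherwise let `n₀` be the largest element of `NN a`; `DD^(n₀) = q^(n₀) + ...`, so the sum over `NN a` of the coefficients of `DD^(n₀)` is `1`, but `n₀ ∉ K a`): the term is `0`.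
For the other `a` let `k₀(a)` be the least element of `K a` (odd), `k_a = 2^a k₀(a)`; these numbers are pairwise different (`k₀(a)` odd). EST twice (`E = N`, `W = z`; `E = 3N`, `W = y`; `2^(a+1) k₀ = 2 k_a`): the `a`-th term of `XI` is a constant `+ y/z^(2k_a) + z/y^(2k_a) + ` (value times `g^(8k_a - 1)` `≤ 1`). LDT:
the value of `y/z^(2k_a) + z/y^(2k_a)` is `g^(-(8k_a-2))`. Let `k` be the least of the `k_a`; the other ones are `≥ k+1`. So `XI + c` has value exactly `g^(-(8k-2))` for a constant `c ∈ kk`, `k ≥ 1`, in particular it is not `0` and its value is `< 1`; constants have value `0` or `1`. So `XI` is not a constant.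
`XI + r`: `v (XI) ≤ 1 < g`, so `v (XI + r) = g > 1`, while constants have value `≤ 1`. -/
def PSN_stmt : Prop := ∀ (N A : ℕ) (NN K : ℕ → Finset ℕ), Odd N → (∀ a < A, Rel (NN a) (K a)) →
  (∃ a < A, (K a).Nonempty) → (∀ a < A, ∀ n ∈ NN a, n ∣ N) → ∀ c : kk,
  XI N A NN ≠ algebraMap kk LL c ∧ XI N A NN + sig N 1 UU ≠ algebraMap kk LL c

end Pool.Agent.QP
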